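import Pool.Agent.H939.PF.Defs
import Pool.Graph.R_pool_sql_team_seeded_f72693b1.W492.PC.Fin
import Pool.Graph.R_pool_sql_team_seeded_f72693b1.W492.PC.Proj

/-!
# Orthogonality, conservativity, faithfulness and nilpotence in the extension
-/

set_option linter.unusedSectionVars false
set_option linter.style.haveILetI false

open CategoryTheory Limits MonoidalCategory Triangulated Pretriangulated ZeroObject

namespace Pool.Agent.H939.PF

open Pool.Agent.W492.TS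

universe v u v₁ u₁ v₂ u₂ v₃ u₃ w

variable {T : Type u} [Category.{v} T] [HasZeroObject T] [HasShift T ℤ] [Preadditive T]
  [∀ n : ℤ, (shiftFunctor T n).Additive] [Pretriangulated T] [IsTriangulated T]
  [MonoidalCategory T] [SymmetricCategory T] [RightRigidCategory T]
  [∀ X : T, (tensorLeft X).CommShift ℤ] [∀ X : T, (tensorLeft X).IsTriangulated]
  {I : Type w} {D : I → Type u₂} [∀ i, Category.{v₂} (D i)] [∀ i, HasZeroObject (D i)]
  [∀ i, HasShift (D i) ℤ] [∀ i, Preadditive (D i)]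
  [∀ i, ∀ n : ℤ, (shiftFunctor (D i) n).Additive] [∀ i, Pretriangulated (D i)]
  [∀ i, IsTriangulated (D i)] [∀ i, MonoidalCategory (D i)] [∀ i, MonoidalPreadditive (D i)]
  {T' : Type u₁} [Category.{v₁} T'] [HasZeroObject T'] [HasShift T' ℤ] [Preadditive T']
  [∀ n : ℤ, (shiftFunctor T' n).Additive] [Pretriangulated T'] [IsTriangulated T']
  [MonoidalCategory T'] [SymmetricCategory T'] [RightRigidCategory T']
  [∀ X : T', (tensorLeft X).CommShift ℤ] [∀ X : T', (tensorLeft X).IsTriangulated]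
  [MonoidalPreadditive T']
  {D' : I → Type u₃} [∀ i, Category.{v₃} (D' i)] [∀ i, HasZeroObject (D' i)]
  [∀ i, HasShift (D' i) ℤ] [∀ i, Preadditive (D' i)]
  [∀ i, ∀ n : ℤ, (shiftFunctor (D' i) n).Additive] [∀ i, Pretriangulated (D' i)]
  [∀ i, IsTriangulated (D' i)] [∀ i, MonoidalCategory (D' i)] [∀ i, MonoidalPreadditive (D' i)]
  {R : ∀ i, T ⥤ D i} [∀ i, (R i).CommShift ℤ] [∀ i, (R i).IsTriangulated]
  [∀ i, (R i).Monoidal] {s : ∀ i, TStructure (D i)}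
  {R' : ∀ i, T' ⥤ D' i} [∀ i, (R' i).CommShift ℤ] [∀ i, (R' i).IsTriangulated]
  [∀ i, (R' i).Monoidal] {s' : ∀ i, TStructure (D' i)}
  {π : T ⥤ T'} [π.LaxMonoidal] [π.PreservesZeroMorphisms]

/-- the data of the motivic t-structure of `T`. -/
structure Good (R : ∀ i, T ⥤ D i) (s : ∀ i, TStructure (D i)) (t : TStructure T) : Prop where
  nd : NonDegenerate t
  ten : TensorExact t
  ex : ∀ i, TExact t (s i) (R i)
  le_iff : ∀ i n X, t.le n X ↔ (s i).le n ((R i).obj X)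
  ge_iff : ∀ i n X, t.ge n X ↔ (s i).ge n ((R i).obj X)
  cons : ∀ i X, IsZero ((R i).obj X) → IsZero X
  unit_le : t.le 0 (𝟙_ T)
  unit_ge : t.ge 0 (𝟙_ T)

/-- every morphism `𝟙 ⟶ N` with zero realisation factors through `τ≤-1 N`. -/
theorem Good.factor {t : TStructure T} (ht : Good R s t) (i : I) {N : T} (y : 𝟙_ T ⟶ N)
    (hy : (R i).map y = 0) : ∃ z : 𝟙_ T ⟶ (t.truncLT 0).obj N, y = z ≫ (t.truncLTι 0).app N := by
  have h1 : y ≫ (t.truncGEπ 0).app N = 0 := by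
    refine Pool.Agent.W492.PC.faithful_on_heart (R i) (ht.ex i) (ht.cons i) ht.unit_le
      (t.isGE_truncGE_obj N 0 0).ge _ ?_
    rw [Functor.map_comp, hy, zero_comp]
  exact Triangle.coyoneda_exact₂ _ (t.triangleLTGE_distinguished 0 N) y h1

section
variable {t : TStructure T} (ht : Good R s t) (hP : PushForward R s R' s' π)

include ht

theorem eq_zero_of_presents {A B : T'} {f : A ⟶ B} {N : T} {y : 𝟙_ T ⟶ N}
    (h : Presents R s R' s' π f y) (hy : y = 0) : f = 0 := by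
  obtain ⟨⟨c, hc⟩, -⟩ := h
  rw [hc, hy, Functor.map_zero, comp_zero, MonoidalPreadditive.zero_whiskerRight,
    zero_comp, comp_zero]

include hP

/-- orthogonality in `T'` -/
theorem orth (i : I) {A B : T'} {n m : ℤ} (hnm : n < m) (hA : (s' i).le n ((R' i).obj A))
    (hB : (s' i).ge m ((R' i).obj B)) (f : A ⟶ B) : f = 0 := by
  obtain ⟨N, y, hN⟩ := hP.exists_presents A B f
  have h1 : t.ge (m - n) N := (ht.ge_iff i _ N).2 (hN.2 i n m hA hB)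
  have h2 : y = 0 := t.zero_of_isLE_of_isGE y 0 (m - n) (by omega) ⟨ht.unit_le⟩ ⟨h1⟩
  exact eq_zero_of_presents ht hN h2

/-- conservativity of the realisations of `T'` -/
theorem conservative (i : I) (M : T') (hM : IsZero ((R' i).obj M)) : IsZero M := by
  rw [IsZero.iff_id_eq_zero]
  exact orth ht hP i (n := 0) (m := 1) (by norm_num) ((s' i).isLE_of_isZero hM 0).le
    ((s' i).isGE_of_isZero hM 1).ge _

end

/-! ### the filtration -/

variable (R' s') in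
/-- `f` factors through `Q ⊗ A` with `Q ≤ -r`. -/
def Low (r : ℤ) {A B : T'} (f : A ⟶ B) : Prop :=
  ∃ (Q : T') (u : 𝟙_ T' ⟶ Q) (ψ : Q ⊗ A ⟶ B), (∀ i, (s' i).le (-r) ((R' i).obj Q)) ∧
    f = (λ_ A).inv ≫ (u ▷ A) ≫ ψ

theorem low_coherence {P Q A : T'} (u : 𝟙_ T' ⟶ Q) (v : 𝟙_ T' ⟶ P) :
    (λ_ A).inv ≫ (u ▷ A) ≫ (λ_ (Q ⊗ A)).inv ≫ (v ▷ (Q ⊗ A)) =
      (λ_ A).inv ≫ (((λ_ (𝟙_ T')).inv ≫ (v ▷ 𝟙_ T') ≫ (P ◁ u)) ▷ A) ≫ (α_ P Q A).hom := by
  have e1 : (u ▷ A) ≫ (λ_ (Q ⊗ A)).inv = (λ_ (𝟙_ T' ⊗ A)).inv ≫ 𝟙_ T' ◁ (u ▷ A) := by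
    simp
  have e2 : 𝟙_ T' ◁ (u ▷ A) ≫ (v ▷ (Q ⊗ A)) = v ▷ (𝟙_ T' ⊗ A) ≫ P ◁ (u ▷ A) :=
    whisker_exchange v (u ▷ A)
  rw [reassoc_of% e1, e2]
  simp only [comp_whiskerRight, Category.assoc, whisker_assoc, Iso.inv_hom_id, Category.comp_id]
  monoidal

theorem Low.comp (hs : ∀ i, TensorExact (s' i)) {a b : ℤ} {A B C : T'} {f : A ⟶ B} {g : B ⟶ C}
    (hf : Low R' s' a f) (hg : Low R' s' b g) : Low R' s' (a + b) (f ≫ g) := by
  obtain ⟨Q, u, ψ, hQ, rfl⟩ := hf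
  obtain ⟨P, v, χ, hP, rfl⟩ := hg
  refine ⟨P ⊗ Q, (λ_ (𝟙_ T')).inv ≫ (v ▷ 𝟙_ T') ≫ (P ◁ u), (α_ P Q A).hom ≫ (P ◁ ψ) ≫ χ,
    Pool.Agent.W492.PC.RLE.tensor hs (by ring) hP hQ, ?_⟩
  have e1 : ψ ≫ (λ_ B).inv ≫ (v ▷ B) = (λ_ (Q ⊗ A)).inv ≫ (v ▷ (Q ⊗ A)) ≫ (P ◁ ψ) := by
    rw [← whisker_exchange]
    simp
  have e2 := low_coherence (A := A) u v
  calc ((λ_ A).inv ≫ (u ▷ A) ≫ ψ) ≫ (λ_ B).inv ≫ (v ▷ B) ≫ χ
      = (λ_ A).inv ≫ (u ▷ A) ≫ (ψ ≫ (λ_ B).inv ≫ (v ▷ B)) ≫ χ := by simp only [Category.assoc]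
    _ = ((λ_ A).inv ≫ (u ▷ A) ≫ (λ_ (Q ⊗ A)).inv ≫ (v ▷ (Q ⊗ A))) ≫ (P ◁ ψ) ≫ χ := by
        rw [e1]; simp only [Category.assoc]
    _ = _ := by rw [e2]; simp only [Category.assoc]

section
variable {t : TStructure T} (ht : Good R s t) (hP : PushForward R s R' s' π)
include ht hP

theorem Low.eq_zero (hs : ∀ i, TensorExact (s' i)) (i : I) {r p q : ℤ} (hpq : p - r < q)
    {A B : T'} {f : A ⟶ B} (hf : Low R' s' r f) (hA : (s' i).le p ((R' i).obj A))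
    (hB : (s' i).ge q ((R' i).obj B)) : f = 0 := by
  obtain ⟨Q, u, ψ, hQ, rfl⟩ := hf
  have h1 : RLE (fun _ : PUnit.{1} => R' i) (fun _ => s' i) (p - r) (Q ⊗ A) :=
    Pool.Agent.W492.PC.RLE.tensor (R := fun _ : PUnit.{1} => R' i) (s := fun _ => s' i)
      (fun _ => hs i) (by ring) (fun _ => hQ i) (fun _ => hA)
  rw [orth ht hP i hpq (h1 ⟨⟩) hB ψ, comp_zero, comp_zero]

omit hP in
theorem low_of_presents (hdeg : ∀ (i : I) (n : ℤ) (X : T), (s i).le n ((R i).obj X) →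
      (s' i).le n ((R' i).obj (π.obj X)))
    {A B : T'} {f : A ⟶ B} {N : T} {y : 𝟙_ T ⟶ N}
    (h : Presents R s R' s' π f y) (i : I) (hy : (R i).map y = 0) : Low R' s' 1 f := by
  obtain ⟨z, hz⟩ := ht.factor i y hy
  obtain ⟨⟨c, hc⟩, -⟩ := h
  refine ⟨π.obj ((t.truncLT 0).obj N), Functor.LaxMonoidal.ε π ≫ π.map z,
    (π.map ((t.truncLTι 0).app N) ▷ A) ≫ c, fun j => hdeg j _ _ ?_, ?_⟩
  · exact (ht.le_iff j _ _).1 (t.isLE_truncLT_obj N 0 (-1)).le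
  · have e1 : π.map y = π.map z ≫ π.map ((t.truncLTι 0).app N) := by
      rw [← Functor.map_comp, ← hz]
    rw [hc, e1]
    simp only [comp_whiskerRight, Category.assoc]

variable (hs : ∀ i, TensorExact (s' i))
  (hdeg : ∀ (i : I) (n : ℤ) (X : T), (s i).le n ((R i).obj X) →
      (s' i).le n ((R' i).obj (π.obj X)))
include hs hdeg

/-- faithfulness -/
theorem faithful (i : I) {n : ℤ} {A B : T'} (f : A ⟶ B) (hA : (s' i).le n ((R' i).obj A))
    (hB : (s' i).ge n ((R' i).obj B)) (hf : (R' i).map f = 0) : f = 0 := by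
  obtain ⟨N, y, hN, hy⟩ := hP.faithful i n A B f hA hB hf
  exact Low.eq_zero ht hP hs i (by omega) (low_of_presents ht hdeg hN i hy) hA hB

/-- nilpotence -/
theorem nilpotent (i : I) (hb : Bounded (s' i)) {M : T'} (φ : End M)
    (hφ : ∀ m, ((s' i).truncGELE m m).map ((R' i).map (φ : M ⟶ M)) = 0) : IsNilpotent φ := by
  obtain ⟨⟨b, hb'⟩, ⟨a, ha⟩⟩ := hb ((R' i).obj M)
  obtain ⟨r, hr⟩ : ∃ r : ℕ, b ≤ a + r - 1 := ⟨(b - a + 1).toNat, by omega⟩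
  have hb'' : (s' i).le (a + r - 1) ((R' i).obj M) := (s' i).le_monotone hr _ hb'
  obtain ⟨N, y, hN, hy⟩ := hP.nilpotent i a r M φ ha hb'' hφ
  have h1 : Low R' s' 1 (φ ^ r : End M) := low_of_presents ht hdeg hN i hy
  have key : ∀ q : ℕ, Low R' s' (q + 1 : ℕ) ((φ ^ r) ^ (q + 1) : End M) := by
    intro q
    induction q with
    | zero => simpa using h1
    | succ q ih =>
      have h2 := Low.comp hs h1 ih
      have e1 : (1 : ℤ) + ((q + 1 : ℕ) : ℤ) = ((q + 1 + 1 : ℕ) : ℤ) := by push_cast; ring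
      rw [e1] at h2
      rw [pow_succ]
      exact h2
  refine ⟨r * (r + 1), ?_⟩
  rw [pow_mul]
  have h3 := key r
  exact Low.eq_zero ht hP hs i (p := a + r - 1) (q := a) (by push_cast; omega) h3 hb'' ha

end

end Pool.Agent.H939.PF
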