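import Pool.Graph.R_pool_sql_team_seeded_f72693b1.W492.MT.Defs

/-!
# Definitions for the invariance of the motivic t-structure under extensions of the base field
-/

set_option linter.unusedSectionVars false

open CategoryTheory Limits MonoidalCategory Triangulated Pretriangulated

namespace Pool.Agent.H939.PF

universe v u v₁ u₁ v₂ u₂ v₃ u₃ w

/-- The endomorphism `f` of an object with a t-structure acts on the cohomology as the projector
onto the cohomology in degree `n`. -/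
def IsProj {D : Type u₂} [Category.{v₂} D] [HasZeroObject D] [HasShift D ℤ] [Preadditive D]
    [∀ n : ℤ, (shiftFunctor D n).Additive] [Pretriangulated D] (s : TStructure D) (n : ℤ)
    {X : D} (f : X ⟶ X) : Prop :=
  (s.truncGELE n n).map f = 𝟙 _ ∧ ∀ m, m ≠ n → (s.truncGELE m m).map f = 0

/-- The endomorphism of `R E` defined by a class `x : 𝟙 ⟶ R N` and an action
`g : E ⊗ N ⟶ E` of `N` on `E`. -/
def act {T : Type u} [Category.{v} T] [MonoidalCategory T] {D : Type u₂} [Category.{v₂} D]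
    [MonoidalCategory D] (R : T ⥤ D) [R.Monoidal] {E N : T} (g : E ⊗ N ⟶ E)
    (x : 𝟙_ D ⟶ R.obj N) : R.obj E ⟶ R.obj E :=
  (ρ_ (R.obj E)).inv ≫ (R.obj E ◁ x) ≫ Functor.LaxMonoidal.μ R E N ≫ R.map g

variable {T : Type u} [Category.{v} T] [HasZeroObject T] [HasShift T ℤ] [Preadditive T]
  [∀ n : ℤ, (shiftFunctor T n).Additive] [Pretriangulated T] [MonoidalCategory T]
  {I : Type w} {D : I → Type u₂} [∀ i, Category.{v₂} (D i)] [∀ i, HasZeroObject (D i)]
  [∀ i, HasShift (D i) ℤ] [∀ i, Preadditive (D i)]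
  [∀ i, ∀ n : ℤ, (shiftFunctor (D i) n).Additive] [∀ i, Pretriangulated (D i)]
  [∀ i, MonoidalCategory (D i)]
  {T' : Type u₁} [Category.{v₁} T'] [HasZeroObject T'] [HasShift T' ℤ] [Preadditive T']
  [∀ n : ℤ, (shiftFunctor T' n).Additive] [Pretriangulated T'] [MonoidalCategory T']
  {D' : I → Type u₃} [∀ i, Category.{v₃} (D' i)] [∀ i, HasZeroObject (D' i)]
  [∀ i, HasShift (D' i) ℤ] [∀ i, Preadditive (D' i)]
  [∀ i, ∀ n : ℤ, (shiftFunctor (D' i) n).Additive] [∀ i, Pretriangulated (D' i)]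
  (R : ∀ i, T ⥤ D i) (s : ∀ i, TStructure (D i))
  (R' : ∀ i, T' ⥤ D' i) (s' : ∀ i, TStructure (D' i)) (π : T ⥤ T') [π.LaxMonoidal]

/-- The morphism `f : A ⟶ B` of `T'` is presented by the morphism `y : 𝟙 ⟶ N` of `T` : it is the
composition of `y ⊗ A` with a morphism `π N ⊗ A ⟶ B`, and `N` is `≥ b - a` if `A` is `≤ a` and
`B` is `≥ b`. -/
def Presents {A B : T'} (f : A ⟶ B) {N : T} (y : 𝟙_ T ⟶ N) : Prop :=
  (∃ c : π.obj N ⊗ A ⟶ B,
    f = (λ_ A).inv ≫ ((Functor.LaxMonoidal.ε π ≫ π.map y) ▷ A) ≫ c) ∧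
  ∀ (i : I) (a b : ℤ), (s' i).le a ((R' i).obj A) → (s' i).ge b ((R' i).obj B) →
    (s i).ge (b - a) ((R i).obj N)

/-- Morphisms of `T'` are presented by morphisms of `T`. -/
structure PushForward : Prop where
  exists_presents : ∀ (A B : T') (f : A ⟶ B), ∃ (N : T) (y : 𝟙_ T ⟶ N),
    Presents R s R' s' π f y
  /-- if `A` is `≤ n`, `B` is `≥ n` and `R' i f = 0`, then one can take `y` with `R i y = 0` -/
  faithful : ∀ (i : I) (n : ℤ) (A B : T') (f : A ⟶ B), (s' i).le n ((R' i).obj A) →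
    (s' i).ge n ((R' i).obj B) → (R' i).map f = 0 →
    ∃ (N : T) (y : 𝟙_ T ⟶ N), Presents R s R' s' π f y ∧ (R i).map y = 0
  /-- if `φ` acts by zero on the cohomology of `R' i M`, which lives in `r` successive degrees, then
  for `φ ^ r` one can take `y` with `R i y = 0` -/
  nilpotent : ∀ (i : I) (a : ℤ) (r : ℕ) (M : T') (φ : End M), (s' i).ge a ((R' i).obj M) →
    (s' i).le (a + r - 1) ((R' i).obj M) →
    (∀ m, ((s' i).truncGELE m m).map ((R' i).map (φ : M ⟶ M)) = 0) →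
    ∃ (N : T) (y : 𝟙_ T ⟶ N), Presents R s R' s' π (φ ^ r : End M) y ∧ (R i).map y = 0

/-- `X` is an iterated extension of `n` objects of the class `𝒬`. -/
def IsExt (𝒬 : ObjectProperty T) : ℕ → T → Prop
  | 0 => fun M => IsZero M
  | n + 1 => fun M => ∃ (X M' : T) (f : X ⟶ M) (g : M ⟶ M') (h : M' ⟶ X⟦(1 : ℤ)⟧),
      Triangle.mk f g h ∈ distTriang T ∧ 𝒬 X ∧ IsExt 𝒬 n M'

/-- `N` is of weight `≥ 0` : it is a direct summand of an iterated extension of objects `C⟦m⟧`,
where `C` is a Chow motive and `m` a natural number. -/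
def WeightNonneg (𝒞 : ObjectProperty T) (N : T) : Prop :=
  ∃ (N' : T) (n : ℕ), Nonempty (Retract N N') ∧
    IsExt (fun Y => ∃ (C : T) (m : ℕ), 𝒞 C ∧ Nonempty (Y ≅ C⟦(m : ℤ)⟧)) n N'

/-- Every Chow motive `M` of `T'` has, for every degree `n`, a model : a Chow motive `E` of `T` (the
fibre of the model at a point) and an object `N` of `T` of weight `≥ 0` (the endomorphisms of the
model) acting on `E` by `g : E ⊗ N ⟶ E`, such that the projector onto the cohomology in degree `n`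
of a realisation of `E` comes from a class `x : 𝟙 ⟶ R i N`; and if a morphism `y : 𝟙 ⟶ N` of `T`
induces this projector on the realisations of `E`, then some endomorphism of `M` induces
it on the realisations of `M`. -/
def Models [∀ i, (R i).Monoidal] (𝒞 : ObjectProperty T) (𝒞' : ObjectProperty T') : Prop :=
  ∀ (M : T') (n : ℤ), 𝒞' M → ∃ (E N : T) (g : E ⊗ N ⟶ E), 𝒞 E ∧ WeightNonneg 𝒞 N ∧
    (∃ (i : I) (x : 𝟙_ (D i) ⟶ (R i).obj N), IsProj (s i) n (act (R i) g x)) ∧
    ∀ y : 𝟙_ T ⟶ N,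
      (∀ i, IsProj (s i) n ((R i).map ((ρ_ E).inv ≫ (E ◁ y) ≫ g))) →
      ∃ φ : M ⟶ M, ∀ i, IsProj (s' i) n ((R' i).map φ)

end Pool.Agent.H939.PF
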