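import Pool.Agent.H939.PF.Defs

/-!
# Motives over all the fields of one characteristic
-/

open CategoryTheory Limits MonoidalCategory Triangulated Pretriangulated

universe u v₁ u₁ v₂ u₂ w

namespace Pool.Agent.H939.PF

open Pool.Agent.W492.MT

/-- A rigid tensor triangulated category `T` (constructible motives over a field) with realisation
functors `R ℓ : T ⥤ D ℓ`, t-structures `s ℓ` on the `D ℓ`, and a class of objects of `T` (the Chow
motives), with the formal properties listed in `Setup` and `Lefschetz`. -/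
structure Motives (Λ : Type w) where
  /-- the category of motives -/
  T : Type u₁
  [catT : Category.{v₁} T]
  [zeroT : HasZeroObject T]
  [shiftT : HasShift T ℤ]
  [preT : Preadditive T]
  [addT : ∀ n : ℤ, (shiftFunctor T n).Additive]
  [pretriT : Pretriangulated T]
  [triT : IsTriangulated T]
  [idemT : IsIdempotentComplete T]
  [monT : MonoidalCategory T]
  [symT : SymmetricCategory T]
  [rigidT : RightRigidCategory T]
  [tensorShift : ∀ X : T, (tensorLeft X).CommShift ℤ]
  [tensorTri : ∀ X : T, (tensorLeft X).IsTriangulated]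
  [monPreT : MonoidalPreadditive T]
  [linT : Linear ℚ T]
  [monLinT : MonoidalLinear ℚ T]
  /-- the target of the `ℓ`-adic realisation -/
  D : Λ → Type u₂
  [catD : ∀ ℓ, Category.{v₂} (D ℓ)]
  [zeroD : ∀ ℓ, HasZeroObject (D ℓ)]
  [shiftD : ∀ ℓ, HasShift (D ℓ) ℤ]
  [preD : ∀ ℓ, Preadditive (D ℓ)]
  [addD : ∀ ℓ, ∀ n : ℤ, (shiftFunctor (D ℓ) n).Additive]
  [pretriD : ∀ ℓ, Pretriangulated (D ℓ)]
  [triD : ∀ ℓ, IsTriangulated (D ℓ)]
  [monD : ∀ ℓ, MonoidalCategory (D ℓ)]
  [monPreD : ∀ ℓ, MonoidalPreadditive (D ℓ)]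
  /-- the realisations -/
  R : ∀ ℓ, T ⥤ D ℓ
  [shiftR : ∀ ℓ, (R ℓ).CommShift ℤ]
  [triR : ∀ ℓ, (R ℓ).IsTriangulated]
  [monR : ∀ ℓ, (R ℓ).Monoidal]
  /-- the standard t-structures -/
  s : ∀ ℓ, TStructure (D ℓ)
  /-- the Chow motives -/
  Chow : ObjectProperty T
  setup : Setup R s Chow ℚ
  lefschetz : Lefschetz R s Chow

attribute [instance] Motives.catT Motives.zeroT Motives.shiftT Motives.preT Motives.addT
  Motives.pretriT Motives.triT Motives.idemT Motives.monT Motives.symT Motives.rigidT
  Motives.tensorShift Motives.tensorTri Motives.monPreT Motives.linT Motives.monLinT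
  Motives.catD Motives.zeroD Motives.shiftD Motives.preD Motives.addD Motives.pretriD
  Motives.triD Motives.monD Motives.monPreD Motives.shiftR Motives.triR Motives.monR

namespace Motives

variable {Λ : Type w} (M : Motives.{v₁, u₁, v₂, u₂} Λ)

/-- Q1 : there is a single t-structure which is non-degenerate, compatible with the tensor product
and for which all the realisations are t-exact. -/
def HasMotivicTStructure : Prop :=
  ∃ t : TStructure M.T, NonDegenerate t ∧ TensorExact t ∧ ∀ ℓ, TExact t (M.s ℓ) (M.R ℓ)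

/-- The `ℓ`-adic realisation of `X` is `≤ n`. -/
def Le (ℓ : Λ) (n : ℤ) (X : M.T) : Prop := (M.s ℓ).le n ((M.R ℓ).obj X)

/-- The `ℓ`-adic realisation of `X` is `≥ n`. -/
def Ge (ℓ : Λ) (n : ℤ) (X : M.T) : Prop := (M.s ℓ).ge n ((M.R ℓ).obj X)

/-- The morphism `f` acts by zero on the `ℓ`-adic cohomology in degree `n`. -/
def HZero (ℓ : Λ) (n : ℤ) {X Y : M.T} (f : X ⟶ Y) : Prop :=
  ((M.s ℓ).truncGELE n n).map ((M.R ℓ).map f) = 0

/-- For all `ℓ`, the endomorphism `φ` acts on the `ℓ`-adic cohomology as the projector onto the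
cohomology in degree `n`. -/
def IsProjector (n : ℤ) {X : M.T} (φ : X ⟶ X) : Prop :=
  ∀ ℓ, IsProj (M.s ℓ) n ((M.R ℓ).map φ)

/-- Every Chow motive is a finite direct sum of Chow motives whose realisations are concentrated in
one degree. -/
def HasKunneth : Prop := Kunneth M.R M.s M.Chow

/-- `X` is a Chow motive whose realisations are concentrated in degree `d`. -/
def IsPure (d : ℤ) (X : M.T) : Prop := M.Chow X ∧ InDeg M.R M.s d X

/-- If `X` is a Chow motive with realisations in degree `d`, there are no morphisms of degree `< d`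
from the unit to `X`. -/
def Vanishing : Prop :=
  ∀ (X : M.T) (d : ℤ), M.IsPure d X → ∀ m : ℤ, m < d → ∀ f : 𝟙_ M.T ⟶ X⟦m⟧, f = 0

/-- If `X` is a Chow motive with realisations in degree `d`, every nonzero morphism from `X⟦d⟧` to
the unit is numerically nontrivial. -/
def RatEqNum : Prop :=
  ∀ (X : M.T) (d : ℤ), M.IsPure d X → ∀ g : X⟦d⟧ ⟶ 𝟙_ M.T, g ≠ 0 →
    ∃ x : 𝟙_ M.T ⟶ X⟦d⟧, x ≫ g ≠ 0

/-- Parshin's conjecture : there are no morphisms of nonzero degree from the unit to a Chow
motive. -/
def Parshin : Prop := ∀ X, M.Chow X → ∀ m : ℤ, m ≠ 0 → ∀ f : 𝟙_ M.T ⟶ X⟦m⟧, f = 0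

/-- Beilinson's conjecture : every nonzero morphism from a Chow motive to the unit is numerically
nontrivial. -/
def Beilinson : Prop :=
  ∀ X, M.Chow X → ∀ g : X ⟶ 𝟙_ M.T, g ≠ 0 → ∃ x : 𝟙_ M.T ⟶ X, x ≫ g ≠ 0

/-- `Fr` has the formal properties of the Frobenius of the category of motives over a finite
field. -/
def IsFrobenius (Fr : ∀ X : M.T, X ⟶ X) : Prop := Weil M.R M.s M.Chow Fr

end Motives

variable {Λ : Type w}

/-- The base change functor for an extension of fields `K/k`. -/
structure BaseChange (M M' : Motives.{v₁, u₁, v₂, u₂} Λ) where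
  /-- base change -/
  P : M.T ⥤ M'.T
  [laxP : P.LaxMonoidal]
  [addP : P.Additive]
  [faithfulP : P.Faithful]
  /-- the realisation of the base change of `X` lives in the same degrees -/
  le : ∀ ℓ n X, M.Le ℓ n X → M'.Le ℓ n (P.obj X)
  ge : ∀ ℓ n X, M.Ge ℓ n X → M'.Ge ℓ n (P.obj X)
  /-- if a morphism acts by zero on the cohomology of the realisations in degree `n`, so does its
  base change -/
  hZero : ∀ ℓ n (X Y : M.T) (f : X ⟶ Y), M.HZero ℓ n f → M'.HZero ℓ n (P.map f)
  /-- the base change of a Chow motive is a Chow motive -/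
  chow : ∀ X, M.Chow X → M'.Chow (P.obj X)
  /-- Kuenneth projectors specialise -/
  specialise : ∀ (X : M.T) (n : ℤ), M.Chow X →
    (∃ φ : P.obj X ⟶ P.obj X, M'.IsProjector n φ) → ∃ φ : X ⟶ X, M.IsProjector n φ
  /-- morphisms over `K` come from morphisms over `k` by push-forward -/
  pushForward : PushForward M.R M.s M'.R M'.s P

attribute [instance] BaseChange.laxP BaseChange.addP BaseChange.faithfulP

/-- Chow motives over an extension `K` of an algebraically closed field `k` have models over
smooth varieties over `k`. -/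
def HasModels (M M' : Motives.{v₁, u₁, v₂, u₂} Λ) : Prop :=
  Models M.R M.s M'.R M'.s M.Chow M'.Chow

/-- Motives over all the fields of characteristic `p`. -/
structure FieldMotives (p : ℕ) (Λ : Type w) where
  /-- motives over `k` -/
  obj : ∀ (k : Type u) [Field k] [CharP k p], Motives.{v₁, u₁, v₂, u₂} Λ
  /-- base change along an embedding of fields -/
  map : ∀ {k K : Type u} [Field k] [CharP k p] [Field K] [CharP K p] (_ : k →+* K),
    BaseChange (obj k) (obj K)
  /-- for an algebraic extension `K/k`, every Chow motive over `K` is a direct summand of the base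
  change of a Chow motive over `k` -/
  algebraic : ∀ {k K : Type u} [Field k] [CharP k p] [Field K] [CharP K p] [Algebra k K]
    [Algebra.IsAlgebraic k K] (X : (obj K).T), (obj K).Chow X →
      ∃ E : (obj k).T, (obj k).Chow E ∧ Nonempty (Retract X ((map (algebraMap k K)).P.obj E))
  /-- if `k` is algebraically closed, Chow motives over `K` have models over varieties over `k` -/
  models : ∀ {k K : Type u} [Field k] [CharP k p] [IsAlgClosed k] [Field K] [CharP K p]
    (_ : k →+* K), HasModels (obj k) (obj K)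

end Pool.Agent.H939.PF
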