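import Mathlib.FieldTheory.IsAlgClosed.AlgebraicClosure
import Mathlib.Algebra.Algebra.ZMod
import Mathlib.Algebra.Field.Subfield.Basic
import Mathlib.Algebra.CharP.Algebra

/-!
# The algebraic closure of the prime field
-/

namespace Pool.Agent.H939.PF

universe u

set_option linter.style.haveILetI false

/-- The algebraic closure of the prime field of `k`. -/
abbrev PrimeClosure (k : Type u) [Field k] : Type u := AlgebraicClosure (⊥ : Subfield k)

theorem zmod_injective (p : ℕ) (K : Type u) [Field K] [CharP K p] [Algebra (ZMod p) K] :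
    Function.Injective (algebraMap (ZMod p) K) := by
  rw [show algebraMap (ZMod p) K = ZMod.castHom (dvd_refl p) K from RingHom.ext_zmod _ _]
  exact ZMod.castHom_injective _

/-- The prime field is algebraic over `ZMod p`. -/
theorem isAlgebraic_bot (p : ℕ) (k : Type u) [Field k] [CharP k p]
    [Algebra (ZMod p) (⊥ : Subfield k)] : Algebra.IsAlgebraic (ZMod p) (⊥ : Subfield k) := by
  haveI : IsDomain (ZMod p) := (zmod_injective p (⊥ : Subfield k)).isDomain _
  constructor
  rintro ⟨x, hx⟩
  have hx' : x ∈ Subfield.closure (∅ : Set k) := by rwa [Subfield.closure_empty]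
  rw [Subfield.mem_closure_iff] at hx'
  obtain ⟨y, hy, z, hz, hxyz⟩ := hx'
  rw [Subring.closure_empty, Subring.mem_bot] at hy hz
  obtain ⟨m, hm⟩ := hy
  obtain ⟨n, hn⟩ := hz
  have h1 : ∀ a : ℤ, IsAlgebraic (ZMod p) ((a : (⊥ : Subfield k))) := fun a => by
    have := isAlgebraic_algebraMap (R := ZMod p) (A := (⊥ : Subfield k)) (a : ZMod p)
    simpa using this
  have h2 : (⟨x, hx⟩ : (⊥ : Subfield k)) = (m : (⊥ : Subfield k)) * (n : (⊥ : Subfield k))⁻¹ := by
    apply Subtype.ext
    simp only [Subfield.coe_mul, Subfield.coe_inv, SubringClass.coe_intCast]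
    rw [hm, hn, ← hxyz, div_eq_mul_inv]
  rw [h2]
  exact (h1 m).mul (h1 n).inv

/-- The algebraic closure of the prime field of `k` embeds into every algebraically closed field of
the same characteristic. -/
theorem exists_hom (p : ℕ) (k K : Type u) [Field k] [CharP k p] [Field K] [CharP K p]
    [IsAlgClosed K] : Nonempty (PrimeClosure k →+* K) := by
  letI : Algebra (ZMod p) (⊥ : Subfield k) := ZMod.algebra _ p
  letI : Algebra (ZMod p) K := ZMod.algebra _ p
  haveI : IsDomain (ZMod p) := (zmod_injective p (⊥ : Subfield k)).isDomain _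
  haveI := isAlgebraic_bot p k
  haveI : Algebra.IsAlgebraic (ZMod p) (PrimeClosure k) :=
    Algebra.IsAlgebraic.trans (ZMod p) (⊥ : Subfield k) (PrimeClosure k)
  haveI : Module.IsTorsionFree (ZMod p) (PrimeClosure k) := by
    rw [Module.isTorsionFree_iff_algebraMap_injective]
    exact zmod_injective p _
  haveI : Module.IsTorsionFree (ZMod p) K := by
    rw [Module.isTorsionFree_iff_algebraMap_injective]
    exact zmod_injective p _
  exact ⟨(IsAlgClosed.lift (R := ZMod p) (S := PrimeClosure k) (M := K)).toRingHom⟩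

end Pool.Agent.H939.PF
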