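import Pool.Agent.H939.PF.Main
import Pool.Agent.H939.PF.DefsField
import Pool.Agent.H939.PF.PrimeField

/-!
# The motivic t-structure depends only on the characteristic
-/

open CategoryTheory Limits MonoidalCategory Triangulated Pretriangulated

universe u v₁ u₁ v₂ u₂ w

namespace Pool.Agent.H939.PF

open Pool.Agent.W492.MT

section
variable {Λ : Type w} [Nonempty Λ] {M M' : Motives.{v₁, u₁, v₂, u₂} Λ}

theorem BaseChange.down (B : BaseChange M M') (h : M'.HasMotivicTStructure) :
    M.HasMotivicTStructure :=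
  main_down (π := B.P) M.setup M'.setup M'.lefschetz B.le B.ge B.hZero B.chow
    B.specialise h

theorem BaseChange.algebraic (B : BaseChange M M')
    (hret : ∀ X, M'.Chow X → ∃ E, M.Chow E ∧ Nonempty (Retract X (B.P.obj E)))
    (h : M.HasMotivicTStructure) : M'.HasMotivicTStructure :=
  main_alg (π := B.P) M.setup M.lefschetz M'.setup B.le B.hZero B.pushForward hret h

theorem BaseChange.up (B : BaseChange M M') (hF : HasModels M M')
    (h : M.HasMotivicTStructure) : M'.HasMotivicTStructure :=
  main (π := B.P) M.setup M.lefschetz M'.setup B.le B.pushForward hF h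

/-- the criterion in terms of Chow motives (library) -/
theorem Motives.criterion (M : Motives.{v₁, u₁, v₂, u₂} Λ) :
    M.HasMotivicTStructure ↔ M.HasKunneth ∧ M.Vanishing ∧ M.RatEqNum := by
  have h2 := (Pool.Agent.W492.PC.general_criterion M.setup M.lefschetz).out 0 1
  refine h2.trans ⟨fun ⟨h3, h4⟩ => ⟨h3, fun X d hX => (h4 X d hX.1 hX.2).1,
    fun X d hX => (h4 X d hX.1 hX.2).2⟩, fun ⟨h3, h4, h5⟩ => ⟨h3, fun X d h6 h7 =>
      ⟨h4 X d ⟨h6, h7⟩, h5 X d ⟨h6, h7⟩⟩⟩⟩

/-- the criterion over a finite field (library) -/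
theorem Motives.criterion_finite (M : Motives.{v₁, u₁, v₂, u₂} Λ) {Fr : ∀ X : M.T, X ⟶ X}
    (hFr : M.IsFrobenius Fr) : M.HasMotivicTStructure ↔ M.Parshin ∧ M.Beilinson := by
  have h2 := (Pool.Agent.W492.PC.finite_field_criterion M.setup hFr).out 0 1
  exact h2.trans ⟨fun h => ⟨fun X hX => (h X hX).1, fun X hX => (h X hX).2⟩,
    fun h X hX => ⟨h.1 X hX, h.2 X hX⟩⟩

end

/-- The motivic t-structure exists over all fields of characteristic `p` if it exists over one. -/
theorem one_field {p : ℕ} {Λ : Type w} [Nonempty Λ] (M : FieldMotives.{u, v₁, u₁, v₂, u₂} p Λ)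
    (k K : Type u) [Field k] [CharP k p] [Field K] [CharP K p]
    (h : (M.obj k).HasMotivicTStructure) : (M.obj K).HasMotivicTStructure := by
  have h1 : (M.obj (AlgebraicClosure k)).HasMotivicTStructure :=
    (M.map (algebraMap k (AlgebraicClosure k))).algebraic (fun X hX => M.algebraic X hX) h
  obtain ⟨φ⟩ := exists_hom p k (AlgebraicClosure k)
  have h2 : (M.obj (PrimeClosure k)).HasMotivicTStructure := (M.map φ).down h1
  obtain ⟨ψ⟩ := exists_hom p k (AlgebraicClosure K)
  have h3 : (M.obj (AlgebraicClosure K)).HasMotivicTStructure :=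
    (M.map ψ).up (M.models ψ) h2
  exact (M.map (algebraMap K (AlgebraicClosure K))).down h3

end Pool.Agent.H939.PF
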