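import Pool.Agent.H939.PF.Lift

/-!
# Lifting classes along pure objects (2)
-/

set_option linter.unusedSectionVars false
set_option linter.style.haveILetI false

open CategoryTheory Limits MonoidalCategory Triangulated Pretriangulated ZeroObject
open Functor.LaxMonoidal Functor.OplaxMonoidal

namespace Pool.Agent.H939.PF

open Pool.Agent.W492.TS Pool.Agent.W492.PC
open Pool.Agent.W492.MT (IsSum)

universe v u v₂ u₂ w

variable {T : Type u} [Category.{v} T] [HasZeroObject T] [HasShift T ℤ] [Preadditive T]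
  [∀ n : ℤ, (shiftFunctor T n).Additive] [Pretriangulated T] [IsTriangulated T]
  [MonoidalCategory T] [SymmetricCategory T] [RightRigidCategory T]
  [∀ X : T, (tensorLeft X).CommShift ℤ] [∀ X : T, (tensorLeft X).IsTriangulated]
  [MonoidalPreadditive T]
  {I : Type w} {D : I → Type u₂} [∀ i, Category.{v₂} (D i)] [∀ i, HasZeroObject (D i)]
  [∀ i, HasShift (D i) ℤ] [∀ i, Preadditive (D i)]
  [∀ i, ∀ n : ℤ, (shiftFunctor (D i) n).Additive] [∀ i, Pretriangulated (D i)]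
  [∀ i, IsTriangulated (D i)] [∀ i, MonoidalCategory (D i)] [∀ i, MonoidalPreadditive (D i)]
  (R : ∀ i, T ⥤ D i) [∀ i, (R i).CommShift ℤ] [∀ i, (R i).IsTriangulated]
  [∀ i, (R i).Monoidal] (s : ∀ i, TStructure (D i)) (𝒞 : ObjectProperty T)

/-- a linear condition on the morphisms `𝟙 ⟶ N`. -/
structure Con (N : T) where
  P : T
  Q : T
  d : ℤ
  γ : P ⊗ N ⟶ Q
  k : P ⟶ Q
  hP : PureAt R s 𝒞 d P
  hQ : PureAt R s 𝒞 d Q

variable {R s 𝒞}

theorem pureAt_biprod (hC : ChowSystem R s 𝒞) {P Q : T} {d : ℤ} (hP : PureAt R s 𝒞 d P)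
    (hQ : PureAt R s 𝒞 d Q) : PureAt R s 𝒞 d (P ⊞ Q) :=
  ⟨hC.sum _ _ hP.1 hQ.1,
    RLE.obj₂ (binaryBiproductTriangle_distinguished P Q) hP.2.1 hQ.2.1,
    RGE.obj₂ (binaryBiproductTriangle_distinguished P Q) hP.2.2 hQ.2.2⟩

theorem rdeg_of_isZero {X : T} (hX : IsZero X) (d : ℤ) : RDeg R s d X :=
  ⟨fun i => ((s i).isLE_of_isZero ((R i).map_isZero hX) d).le,
    fun i => ((s i).isGE_of_isZero ((R i).map_isZero hX) d).ge⟩

theorem combine (hC : ChowSystem R s 𝒞) (hs : ∀ i, TensorExact (s i)) {N : T}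
    (L : List (Con R s 𝒞 N)) : ∃ (B : T) (G : N ⟶ B) (K : 𝟙_ T ⟶ B), PureAt R s 𝒞 0 B ∧
    (∀ i (x : 𝟙_ (D i) ⟶ (R i).obj N),
      (∀ c ∈ L, ww (R i) c.P x ≫ (R i).map c.γ = (R i).map c.k) →
      x ≫ (R i).map G = ε (R i) ≫ (R i).map K) ∧
    (∀ y : 𝟙_ T ⟶ N, y ≫ G = K → ∀ c ∈ L, (ρ_ c.P).inv ≫ (c.P ◁ y) ≫ c.γ = c.k) := by
  induction L with
  | nil =>
    refine ⟨0, 0, 0, ⟨?_, rdeg_of_isZero (isZero_zero T) 0⟩, ?_, ?_⟩
    · exact hC.retract _ _ hC.unit ⟨⟨0, 0, (isZero_zero T).eq_of_src _ _⟩⟩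
    · intro i x _
      rw [Functor.map_zero, Functor.map_zero, comp_zero, comp_zero]
    · intro y _ c hc
      exact absurd hc List.not_mem_nil
  | cons c L ih =>
    obtain ⟨B, G, K, hB, h1, h2⟩ := ih
    letI : ExactPairing (c.Pᘁ) c.P := BraidedCategory.exactPairing_swap c.P (c.Pᘁ)
    have hc : PureAt R s 𝒞 0 (c.Pᘁ ⊗ c.Q) := by
      have := pureAt_dual_tensor hC hs c.hP c.hQ
      rwa [neg_add_cancel] at this
    refine ⟨(c.Pᘁ ⊗ c.Q) ⊞ B, biprod.lift (trG (P' := c.Pᘁ) c.γ) G,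
      biprod.lift (trK (P' := c.Pᘁ) c.k) K, pureAt_biprod hC hc hB, ?_, ?_⟩
    · intro i x hx
      have e1 := comp_trG (R i) (P' := c.Pᘁ) c.γ c.k x (hx c List.mem_cons_self)
      have e2 := h1 i x fun c' hc' => hx c' (List.mem_cons_of_mem _ hc')
      have e3 : ∀ {A : T} (a : A ⟶ c.Pᘁ ⊗ c.Q) (b : A ⟶ B), biprod.lift a b =
          a ≫ biprod.inl + b ≫ biprod.inr := fun a b => by
        apply biprod.hom_ext <;> simp
      rw [e3, e3, Functor.map_add, Functor.map_add, Functor.map_comp, Functor.map_comp,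
        Functor.map_comp, Functor.map_comp, Preadditive.comp_add, Preadditive.comp_add,
        reassoc_of% e1, reassoc_of% e2]
    · intro y hy c' hc'
      rcases List.mem_cons.1 hc' with rfl | hc'
      · apply eq_of_comp_trG (P' := c'.Pᘁ)
        have := congrArg (fun z => z ≫ biprod.fst) hy
        simpa using this
      · refine h2 y ?_ c' hc'
        have := congrArg (fun z => z ≫ biprod.snd) hy
        simpa using this

end Pool.Agent.H939.PF
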