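import Pool.Agent.H939.PF.Wt
import Pool.Agent.H939.PF.Lift2

/-!
# Lifting classes from the realisations to objects of weight `≥ 0`
-/

set_option linter.unusedSectionVars false
set_option linter.style.haveILetI false

open CategoryTheory Limits MonoidalCategory Triangulated Pretriangulated ZeroObject
open Functor.LaxMonoidal Functor.OplaxMonoidal

namespace Pool.Agent.H939.PF

open Pool.Agent.W492.TS Pool.Agent.W492.PC
open Pool.Agent.W492.MT (IsSum tpow symm)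

universe v u v₂ u₂ w

variable {T : Type u} [Category.{v} T] [HasZeroObject T] [HasShift T ℤ] [Preadditive T]
  [∀ n : ℤ, (shiftFunctor T n).Additive] [Pretriangulated T] [IsTriangulated T]
  [MonoidalCategory T] [SymmetricCategory T] [RightRigidCategory T]
  [∀ X : T, (tensorLeft X).CommShift ℤ] [∀ X : T, (tensorLeft X).IsTriangulated]
  [MonoidalPreadditive T]
  {I : Type w} {D : I → Type u₂} [∀ i, Category.{v₂} (D i)] [∀ i, HasZeroObject (D i)]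
  [∀ i, HasShift (D i) ℤ] [∀ i, Preadditive (D i)]
  [∀ i, ∀ n : ℤ, (shiftFunctor (D i) n).Additive] [∀ i, Pretriangulated (D i)]
  [∀ i, IsTriangulated (D i)] [∀ i, MonoidalCategory (D i)] [∀ i, MonoidalPreadditive (D i)]
  {R : ∀ i, T ⥤ D i} [∀ i, (R i).CommShift ℤ] [∀ i, (R i).IsTriangulated]
  [∀ i, (R i).Monoidal] {s : ∀ i, TStructure (D i)} {𝒞 : ObjectProperty T}

section
variable (hC : ChowSystem R s 𝒞)
include hC

theorem Wp.of_mem {C : T} (h : 𝒞 C) : Wp 𝒞 C := fun _ hC' m hm f => hC.orth _ _ hC' h m hm f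

theorem WDeg.wp {n : ℤ} (hn : n ≤ 0) {X : T} (hX : WDeg R s 𝒞 n X) : Wp 𝒞 X := by
  obtain ⟨C, a, hC', ha, ⟨e⟩⟩ := hX.exists_chow hn
  exact ((Wp.of_mem hC hC').shift ha).of_iso e.symm

theorem WDeg.wp_tensor {n : ℤ} (hn : n ≤ 0) {X : T} (hX : WDeg R s 𝒞 n X) {Y : T}
    (hY : Wp 𝒞 Y) : Wp 𝒞 (X ⊗ Y) := by
  obtain ⟨C, a, hC', ha, ⟨e⟩⟩ := hX.exists_chow hn
  have h1 : Wp 𝒞 ((C ⊗ Y)⟦a⟧) := (Wp.tensor_mem hC.tensor hC.dual hC' hY).shift ha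
  refine h1.of_iso ?_
  exact (shiftFunctor T a).mapIso (β_ C Y) ≪≫ (((tensorLeft Y).commShiftIso a).app C).symm ≪≫
    β_ Y (C⟦a⟧) ≪≫ whiskerRightIso e.symm Y

theorem wp_of_filt {l : List ℤ} (hl : ∀ n ∈ l, n ≤ 0) {X : T} (hX : Filt (WDeg R s 𝒞) l X) :
    Wp 𝒞 X := by
  refine Filt.of_forall (P := fun X => Wp 𝒞 X) (fun X hX => Wp.of_isZero hX) ?_ ?_ hX
  · intro X Y Z f g h hT hX hZ
    exact Wp.ext hT hX hZ
  · intro n hn X hX
    exact hX.wp hC (hl n hn)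

theorem wp_tensor_of_filt {l : List ℤ} (hl : ∀ n ∈ l, n ≤ 0) {X : T}
    (hX : Filt (WDeg R s 𝒞) l X) {Y : T} (hY : Wp 𝒞 Y) : Wp 𝒞 (X ⊗ Y) := by
  refine Filt.of_forall (P := fun X => Wp 𝒞 (X ⊗ Y)) (fun X hX => ?_) ?_ ?_ hX
  · exact Wp.of_isZero (isZero_tensor' Y hX)
  · intro X X' Z f g h hT hX hZ
    obtain ⟨k, hk⟩ := tensor_triangle Y hT
    exact (Wp.ext hk (hX.of_iso (β_ X Y)) (hZ.of_iso (β_ Z Y))).of_iso (β_ Y X')
  · intro n hn X hX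
    exact hX.wp_tensor hC (hl n hn) hY

theorem pos_of_filt {l : List ℤ} (hl : ∀ n ∈ l, n ≤ 0) {Z : T} (hZ : Filt (WDeg R s 𝒞) l Z) :
    Pos Z (Z⟦(1 : ℤ)⟧) := by
  have h1 : ∀ a : ℕ, Wp 𝒞 (tpow Z a ⊗ Z) := by
    intro a
    induction a with
    | zero => exact (wp_of_filt hC hl hZ).of_iso (λ_ Z).symm
    | succ a ih => exact (wp_tensor_of_filt hC hl hZ ih).of_iso (α_ Z (tpow Z a) Z).symm
  intro a m f
  let e : (tpow Z a ⊗ Z⟦(1 : ℤ)⟧)⟦(m : ℤ)⟧ ≅ (tpow Z a ⊗ Z)⟦1 + (m : ℤ)⟧ :=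
    (shiftFunctor T (m : ℤ)).mapIso (((tensorLeft (tpow Z a)).commShiftIso (1 : ℤ)).app Z) ≪≫
      shiftIso (tpow Z a ⊗ Z) 1 m (1 + m) rfl
  have h2 := h1 a _ hC.unit (1 + m) (by omega) (f ≫ e.hom)
  rw [← cancel_mono e.hom, h2, zero_comp]

end

theorem rle_of_filt {l : List ℤ} {k : ℤ} (hl : ∀ n ∈ l, n ≤ k) {X : T}
    (hX : Filt (WDeg R s 𝒞) l X) : RLE R s k X := by
  refine Filt.of_forall ?_ ?_ ?_ hX
  · intro Y hY i
    exact ((s i).isLE_of_isZero ((R i).map_isZero hY) k).le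
  · intro X Y Z f g h hT hX hZ
    exact RLE.obj₂ hT hX hZ
  · intro n hn Y hY
    exact hY.rdeg.1.mono (hl n hn)

theorem rge_of_filt {l : List ℤ} {k : ℤ} (hl : ∀ n ∈ l, k ≤ n) {X : T}
    (hX : Filt (WDeg R s 𝒞) l X) : RGE R s k X := by
  refine Filt.of_forall ?_ ?_ ?_ hX
  · intro Y hY i
    exact ((s i).isGE_of_isZero ((R i).map_isZero hY) k).ge
  · intro X Y Z f g h hT hX hZ
    exact RGE.obj₂ hT hX hZ
  · intro n hn Y hY
    exact hY.rdeg.2.anti (hl n hn)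

/-- Lifting along `G : N ⟶ B` for `N` of weight `≥ 0`. -/
theorem lift_filt [IsIdempotentComplete T] {t : TStructure T} (ht : Good R s t)
    (hC : ChowSystem R s 𝒞) (hs : ∀ i, TensorExact (s i)) (F : Type*) [Field F] [CharZero F]
    [Linear F T] [MonoidalLinear F T]
    (hone : ∀ e : 𝟙_ T ⟶ 𝟙_ T, ∃ a : F, e = a • 𝟙 _) (hD : ∀ i, ¬ IsZero (𝟙_ (D i)))
    (hu : ∀ i, SimpleUnit (s i) (𝟙_ (D i))) (hodd : OddFinite R s)
    (hb : RatEqNum R s 𝒞) (hv : UnitVanishing R s 𝒞)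
    {N : T} {l : List ℤ} (hN : Filt (WDeg R s 𝒞) l N) {B : T} (hB : PureAt R s 𝒞 0 B)
    (G : N ⟶ B) (K : 𝟙_ T ⟶ B) (i : I) (x : 𝟙_ (D i) ⟶ (R i).obj N)
    (hx : x ≫ (R i).map G = ε (R i) ≫ (R i).map K) : ∃ y : 𝟙_ T ⟶ N, y ≫ G = K := by
  have hsw : Swap (WDeg R s 𝒞) := swap_wdeg hC.retract (semisimple hC F hone hs hb)
    (negVanishing hC hs hv)
  have hone0 : 𝟙 (𝟙_ T) ≠ 0 := (idem_of_scalar R F hone i (hD i)).1
  -- the fibre of `(G, -K)`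
  let u : N ⊞ 𝟙_ T ⟶ B := biprod.desc G (-K)
  let e : B ≅ B⟦(-1 : ℤ)⟧⟦(1 : ℤ)⟧ :=
    (shiftFunctorZero T ℤ).symm.app B ≪≫ (shiftIso B (-1) 1 0 (by norm_num)).symm
  obtain ⟨E, f, g, hT⟩ := distinguished_cocone_triangle₂ (u ≫ e.hom)
  have hgu : g ≫ u = 0 := by
    have h1 : g ≫ (u ≫ e.hom) = 0 := comp_distTriang_mor_zero₂₃ _ hT
    rw [← cancel_mono e.hom, Category.assoc, h1, zero_comp]
  -- filtrations
  have hB1 : Filt (WDeg R s 𝒞) [1] (B⟦(-1 : ℤ)⟧) := by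
    refine ⟨B⟦(-1 : ℤ)⟧, 0, 𝟙 _, 0, 0, contractible_distinguished _, ?_, isZero_zero T⟩
    have := wdeg_of_pureAt hC.retract hB (m := -1) (by norm_num)
    simpa using this
  have h1' : Filt (WDeg R s 𝒞) [0] (𝟙_ T) := by
    refine ⟨𝟙_ T, 0, 𝟙 _, 0, 0, contractible_distinguished _, ?_, isZero_zero T⟩
    have h2 : PureAt R s 𝒞 0 (𝟙_ T) := ⟨hC.unit, rdeg_unit hu⟩
    have := wdeg_of_pureAt hC.retract h2 (m := 0) (by norm_num)
    rw [sub_zero] at this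
    exact this.of_iso hC.retract ((shiftFunctorZero T ℤ).app _)
  have hN1 : Filt (WDeg R s 𝒞) (l ++ [0]) (N ⊞ 𝟙_ T) :=
    Filt.concat (binaryBiproductTriangle_distinguished N (𝟙_ T)) hN h1'
  have hE : Filt (WDeg R s 𝒞) ([1] ++ (l ++ [0])) E := Filt.concat hT hB1 hN1
  obtain ⟨L, hL, hEL⟩ : ∃ L : List ℤ, L.Pairwise (· ≤ ·) ∧ Filt (WDeg R s 𝒞) L E :=
    ⟨_, List.pairwise_insertionSort _ _, Filt.sort hsw _ hE⟩
  obtain ⟨a, b, hab, ha, hb'⟩ := exists_split_sorted 0 L hL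
  rw [hab] at hEL hL
  obtain ⟨E₀, E₁, j, q, r, hT1, hE₀, hE₁⟩ := hEL.split
  obtain ⟨a₁, a₀, ha', ha1, ha0⟩ := exists_split_sorted (-1) a (List.pairwise_append.1 hL).1
  rw [ha'] at hE₀ ha
  obtain ⟨V, Z, j', q', r', hT2, hV, hZ⟩ := hE₀.split
  have hZ0 : ∀ n ∈ a₀, n ≤ 0 := fun n hn => ha n (List.mem_append_right _ hn)
  have hZ0' : ∀ n ∈ a₀, 0 ≤ n := fun n hn => by have := ha0 n hn; omega
  have hV0 : ∀ n ∈ a₁, n ≤ 0 := fun n hn => ha n (List.mem_append_left _ hn)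
  have ho : (s i).IsLE (𝟙_ (D i)) 0 := ⟨(hu i).1⟩
  have ho' : t.IsGE (𝟙_ T) 0 := ⟨ht.unit_ge⟩
  -- the map `Z ⟶ 𝟙`
  have hVle : t.IsLE V (-1) := ⟨(ht.le_iff i _ _).2 (rle_of_filt ha1 hV i)⟩
  obtain ⟨γ, hγ⟩ : ∃ γ : Z ⟶ 𝟙_ T, j ≫ g ≫ biprod.snd = q' ≫ γ :=
    Triangle.yoneda_exact₂ _ hT2 _ (t.zero_of_isLE_of_isGE _ (-1) 0 (by norm_num) hVle ho')
  -- the section of its realisation
  obtain ⟨v, hv1, hv2⟩ : ∃ v : 𝟙_ (D i) ⟶ (R i).obj (N ⊞ 𝟙_ T), v ≫ (R i).map u = 0 ∧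
      v ≫ (R i).map biprod.snd = ε (R i) := by
    refine ⟨x ≫ (R i).map biprod.inl + ε (R i) ≫ (R i).map biprod.inr, ?_, ?_⟩
    · rw [Preadditive.add_comp, Category.assoc, Category.assoc, ← Functor.map_comp,
        ← Functor.map_comp, biprod.inl_desc, biprod.inr_desc, hx, Functor.map_neg,
        Preadditive.comp_neg, add_neg_cancel]
    · rw [Preadditive.add_comp, Category.assoc, Category.assoc, ← Functor.map_comp,
        ← Functor.map_comp, biprod.inl_snd, biprod.inr_snd, Functor.map_zero, comp_zero,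
        zero_add, CategoryTheory.Functor.map_id, Category.comp_id]
  obtain ⟨k1, hRT⟩ := map_triangle (R i) (rot_of_distTriang _ hT)
  obtain ⟨v', hv'⟩ : ∃ v' : 𝟙_ (D i) ⟶ (R i).obj E, v = v' ≫ (R i).map g :=
    Triangle.coyoneda_exact₂ _ hRT v (by
      change v ≫ (R i).map (u ≫ e.hom) = 0
      rw [Functor.map_comp, reassoc_of% hv1, zero_comp])
  obtain ⟨k2, hRT1⟩ := map_triangle (R i) hT1
  have hE1ge : (s i).IsGE ((R i).obj E₁) 1 := ⟨rge_of_filt (k := 1) (fun n hn => by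
    have := hb' n hn; omega) hE₁ i⟩
  obtain ⟨v'', hv''⟩ : ∃ v'' : 𝟙_ (D i) ⟶ (R i).obj E₀, v' = v'' ≫ (R i).map j :=
    Triangle.coyoneda_exact₂ _ hRT1 v'
      ((s i).zero_of_isLE_of_isGE _ 0 1 (by norm_num) ho hE1ge)
  have hγ0 : γ ≠ 0 := by
    intro h0
    have h3 : j ≫ g ≫ biprod.snd = 0 := by rw [hγ, h0, comp_zero]
    have h4 : ε (R i) = 0 := by
      rw [← hv2, hv', hv'', Category.assoc, Category.assoc, ← Functor.map_comp,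
        ← Functor.map_comp, h3, Functor.map_zero, comp_zero]
    have h5 : IsZero ((R i).obj (𝟙_ T)) := by
      rw [IsZero.iff_id_eq_zero]
      have h6 : (Functor.Monoidal.εIso (R i)).hom = 0 := h4
      rw [← (Functor.Monoidal.εIso (R i)).inv_hom_id, h6, comp_zero]
    exact hD i (h5.of_iso (Functor.Monoidal.εIso (R i)))
  -- the splitting
  obtain ⟨z, hz⟩ := exists_splitting (R i) F (ht.ex i) (ht.cons i)
    ((hu i).of_iso (Functor.Monoidal.εIso (R i))) (fun W h1 h2 => hodd W i h1 h2) hone0 ht.unit_ge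
    ((ht.le_iff i _ _).2 (rle_of_filt hZ0 hZ i)) ((ht.ge_iff i _ _).2 (rge_of_filt hZ0' hZ i))
    (pos_of_filt hC hZ0 hZ) γ hγ0
  obtain ⟨c, hc⟩ := hone (z ≫ γ)
  have hc0 : c ≠ 0 := by
    rintro rfl
    exact hz (by rw [hc, zero_smul])
  have hz1 : (c⁻¹ • z) ≫ γ = 𝟙 _ := by
    rw [Linear.smul_comp, hc, smul_smul, inv_mul_cancel₀ hc0, one_smul]
  obtain ⟨z', hz'⟩ : ∃ z' : 𝟙_ T ⟶ E₀, c⁻¹ • z = z' ≫ q' :=
    Triangle.coyoneda_exact₃ _ hT2 _ (wp_of_filt hC hV0 hV _ hC.unit 1 (by norm_num) _)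
  refine ⟨z' ≫ j ≫ g ≫ biprod.fst, ?_⟩
  have h7 : (z' ≫ j ≫ g) ≫ biprod.snd = 𝟙 (𝟙_ T) := by
    rw [Category.assoc, Category.assoc, hγ, ← Category.assoc, ← hz', hz1]
  have h8 : (z' ≫ j ≫ g) ≫ u = 0 := by
    rw [Category.assoc, Category.assoc, hgu, comp_zero, comp_zero]
  have h9 : (z' ≫ j ≫ g) ≫ u =
      ((z' ≫ j ≫ g) ≫ biprod.fst) ≫ G - ((z' ≫ j ≫ g) ≫ biprod.snd) ≫ K := by
    have h10 : u = biprod.fst ≫ G - biprod.snd ≫ K := by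
      apply biprod.hom_ext' <;> simp [u]
    rw [h10, Preadditive.comp_sub]
    simp only [Category.assoc]
  rw [h8, h7, Category.id_comp] at h9
  have h10 := sub_eq_zero.1 h9.symm
  simpa only [Category.assoc] using h10

/-- Lifting along `G : N ⟶ B` for `N` of weight `≥ 0`. -/
theorem lift_nonneg [IsIdempotentComplete T] {t : TStructure T} (ht : Good R s t)
    (hC : ChowSystem R s 𝒞) (hs : ∀ i, TensorExact (s i)) (F : Type*) [Field F] [CharZero F]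
    [Linear F T] [MonoidalLinear F T]
    (hone : ∀ e : 𝟙_ T ⟶ 𝟙_ T, ∃ a : F, e = a • 𝟙 _) (hD : ∀ i, ¬ IsZero (𝟙_ (D i)))
    (hu : ∀ i, SimpleUnit (s i) (𝟙_ (D i))) (hodd : OddFinite R s)
    (hb : RatEqNum R s 𝒞) (hv : UnitVanishing R s 𝒞) (hK : Kunneth R s 𝒞)
    {N : T} (hN : WeightNonneg 𝒞 N) {B : T} (hB : PureAt R s 𝒞 0 B)
    (G : N ⟶ B) (K : 𝟙_ T ⟶ B) (i : I) (x : 𝟙_ (D i) ⟶ (R i).obj N)
    (hx : x ≫ (R i).map G = ε (R i) ≫ (R i).map K) : ∃ y : 𝟙_ T ⟶ N, y ≫ G = K := by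
  obtain ⟨N', n, ⟨r⟩, hn⟩ := hN
  obtain ⟨l, hl⟩ := filt_ext hC.retract hK hn
  obtain ⟨y, hy⟩ := lift_filt ht hC hs F hone hD hu hodd hb hv hl hB (r.r ≫ G) K i
    (x ≫ (R i).map r.i) (by
      rw [Category.assoc, ← Functor.map_comp, ← Category.assoc, r.retract, Category.id_comp, hx])
  exact ⟨y ≫ r.r, by rw [Category.assoc, hy]⟩

/-- The lifting lemma : a system of linear conditions on the morphisms `𝟙 ⟶ N`, with values in
pure objects, can be solved if it can be solved in one realisation. -/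
theorem lift [IsIdempotentComplete T] {t : TStructure T} (ht : Good R s t)
    (hC : ChowSystem R s 𝒞) (hs : ∀ i, TensorExact (s i)) (F : Type*) [Field F] [CharZero F]
    [Linear F T] [MonoidalLinear F T]
    (hone : ∀ e : 𝟙_ T ⟶ 𝟙_ T, ∃ a : F, e = a • 𝟙 _) (hD : ∀ i, ¬ IsZero (𝟙_ (D i)))
    (hu : ∀ i, SimpleUnit (s i) (𝟙_ (D i))) (hodd : OddFinite R s)
    (hb : RatEqNum R s 𝒞) (hv : UnitVanishing R s 𝒞) (hK : Kunneth R s 𝒞)
    {N : T} (hN : WeightNonneg 𝒞 N) (L : List (Con R s 𝒞 N)) (i : I)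
    (x : 𝟙_ (D i) ⟶ (R i).obj N)
    (hx : ∀ c ∈ L, ww (R i) c.P x ≫ (R i).map c.γ = (R i).map c.k) :
    ∃ y : 𝟙_ T ⟶ N, ∀ c ∈ L, (ρ_ c.P).inv ≫ (c.P ◁ y) ≫ c.γ = c.k := by
  obtain ⟨B, G, K, hB, h1, h2⟩ := combine hC hs L
  obtain ⟨y, hy⟩ := lift_nonneg ht hC hs F hone hD hu hodd hb hv hK hN hB G K i x (h1 i x hx)
  exact ⟨y, h2 y hy⟩

end Pool.Agent.H939.PF
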