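import Pool.Agent.H939.PF.Base
import Mathlib.RingTheory.Idempotents

/-!
# Kuenneth decompositions from Kuenneth projectors and nilpotence
-/

set_option linter.unusedSectionVars false
set_option linter.style.haveILetI false

open CategoryTheory Limits MonoidalCategory Triangulated Pretriangulated ZeroObject

namespace Pool.Agent.H939.PF

open Pool.Agent.W492.TS Pool.Agent.W492.PC
open Pool.Agent.W492.MT (IsSum)

universe v u v₂ u₂ w

/-- An additive functor and the lift of idempotents. -/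
theorem map_idem {T : Type u} [Category.{v} T] [Preadditive T] {E : Type u₂} [Category.{v₂} E]
    [Preadditive E] (Φ : T ⥤ E) [Φ.Additive] {X : T} (π : End X) (g : End (Φ.obj X))
    (hg : Φ.map (π : X ⟶ X) = g) (k : ℕ) :
    Φ.map ((1 - (1 - π ^ k) ^ k : End X) : X ⟶ X) = (1 - (1 - g ^ k) ^ k : End (Φ.obj X)) := by
  have h1 : ∀ (x : End X) (y : End (Φ.obj X)), Φ.map (x : X ⟶ X) = y → ∀ (n : ℕ),
      Φ.map ((x ^ n : End X) : X ⟶ X) = (y ^ n : End (Φ.obj X)) := by
    rintro x y rfl n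
    exact (Functor.mapEnd X Φ).map_pow x n
  have h2 : ∀ (x : End X) (y : End (Φ.obj X)), Φ.map (x : X ⟶ X) = y →
      Φ.map ((1 - x : End X) : X ⟶ X) = (1 - y : End (Φ.obj X)) := by
    rintro x y rfl
    have h3 : ∀ z : X ⟶ X, Φ.map (𝟙 X - z) = 𝟙 _ - Φ.map z := fun z => by
      rw [Functor.map_sub, CategoryTheory.Functor.map_id]
    exact h3 x
  exact h2 _ _ (h1 _ _ (h2 _ _ (h1 _ _ hg k)) k)

variable {T : Type u} [Category.{v} T] [HasZeroObject T] [HasShift T ℤ] [Preadditive T]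
  [∀ n : ℤ, (shiftFunctor T n).Additive] [Pretriangulated T] [IsTriangulated T]
  {I : Type w} {D : I → Type u₂} [∀ i, Category.{v₂} (D i)] [∀ i, HasZeroObject (D i)]
  [∀ i, HasShift (D i) ℤ] [∀ i, Preadditive (D i)]
  [∀ i, ∀ n : ℤ, (shiftFunctor (D i) n).Additive] [∀ i, Pretriangulated (D i)]
  [∀ i, IsTriangulated (D i)]
  {R : ∀ i, T ⥤ D i} [∀ i, (R i).CommShift ℤ] [∀ i, (R i).IsTriangulated]
  {s : ∀ i, TStructure (D i)} {𝒞 : ObjectProperty T}

/-- an endomorphism inducing the projectors of the realisations can be replaced by an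
idempotent. -/
theorem exists_idem (i₀ : I)
    (hnil : ∀ (X : T) (φ : End X), (∀ n, ((s i₀).truncGELE n n).map
      ((R i₀).map (φ : X ⟶ X)) = 0) → IsNilpotent φ)
    {X : T} {d : ℤ} (φ : X ⟶ X) (hφ : ∀ i, IsProj (s i) d ((R i).map φ)) :
    ∃ π : X ⟶ X, π ≫ π = π ∧ ∀ i, IsProj (s i) d ((R i).map π) := by
  let f : End X := φ
  have hn : IsNilpotent (f - f ^ 2) := by
    refine hnil X _ fun n => ?_
    have h1 : (f - f ^ 2 : End X) = φ - φ ≫ φ := by rw [pow_two]; rfl
    rw [h1, Functor.map_sub, Functor.map_sub, Functor.map_comp, Functor.map_comp]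
    by_cases h : n = d
    · subst h
      rw [(hφ i₀).1, Category.comp_id, sub_self]
    · rw [(hφ i₀).2 n h, comp_zero, sub_zero]
  obtain ⟨k, hk⟩ := hn
  have hk' : (f - f ^ 2) ^ (k + 1) = 0 := by rw [pow_succ, hk, zero_mul]
  have hid := isIdempotentElem_one_sub_one_sub_pow_pow f (k + 1) hk'
  refine ⟨(1 - (1 - f ^ (k + 1)) ^ (k + 1) : End X), hid, fun i => ⟨?_, fun m hm => ?_⟩⟩
  · have h2 := map_idem (R i ⋙ (s i).truncGELE d d) f 1 (hφ i).1 (k + 1)
    rw [one_pow, sub_self, zero_pow (Nat.succ_ne_zero k), sub_zero] at h2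
    exact h2
  · have h2 := map_idem (R i ⋙ (s i).truncGELE m m) f 0 ((hφ i).2 m hm) (k + 1)
    rw [zero_pow (Nat.succ_ne_zero k), sub_zero, one_pow, sub_self] at h2
    exact h2

theorem kunneth_aux [IsIdempotentComplete T]
    (hret : ∀ X Y, 𝒞 Y → Nonempty (Retract X Y) → 𝒞 X)
    (hbd : ∀ i, Bounded (s i)) (hK : KunnethProjectors R s 𝒞) (i₀ : I)
    (hcons : ∀ X : T, IsZero ((R i₀).obj X) → IsZero X)
    (hnil : ∀ (X : T) (φ : End X), (∀ n, ((s i₀).truncGELE n n).map
      ((R i₀).map (φ : X ⟶ X)) = 0) → IsNilpotent φ)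
    (k : ℕ) (p : ℤ) {X : T} (hX : 𝒞 X) (h1 : (s i₀).IsGE ((R i₀).obj X) p)
    (h2 : (s i₀).IsLE ((R i₀).obj X) (p + k - 1)) :
    ∃ n, IsSum (fun Y => ∃ d, PureAt R s 𝒞 d Y) n X := by
  induction k generalizing X p with
  | zero =>
    refine ⟨0, ?_⟩
    have h3 : IsZero ((R i₀).obj X) :=
      (s i₀).isZero _ (p + (0 : ℕ) - 1) p (by push_cast; omega)
    exact hcons X h3
  | succ k ih =>
    obtain ⟨π₀, hπ₀⟩ := hK X hX p
    obtain ⟨π, hidem, hπ⟩ := exists_idem i₀ hnil π₀ hπ₀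
    have hidem' : (𝟙 X - π) ≫ (𝟙 X - π) = 𝟙 X - π := by
      rw [Preadditive.sub_comp, Category.id_comp, Preadditive.comp_sub, Category.comp_id, hidem,
        sub_self, sub_zero]
    obtain ⟨A, j, q, hjq, hqj⟩ := IsIdempotentComplete.idempotents_split X _ hidem
    obtain ⟨B, j', q', hjq', hqj'⟩ := IsIdempotentComplete.idempotents_split X _ hidem'
    have e1 : j ≫ q' = 0 := by
      have : (j ≫ q') ≫ j' = 0 := by
        rw [Category.assoc, hqj', ← hqj, Preadditive.comp_sub, Category.comp_id,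
          reassoc_of% hjq, sub_self]
      calc j ≫ q' = ((j ≫ q') ≫ j') ≫ q' := by rw [Category.assoc, hjq', Category.comp_id]
        _ = 0 := by rw [this, zero_comp]
    have e2 : j' ≫ q = 0 := by
      have : (j' ≫ q) ≫ j = 0 := by
        have h5 : π = 𝟙 X - q' ≫ j' := by rw [hqj']; abel
        rw [Category.assoc, hqj, h5, Preadditive.comp_sub, Category.comp_id,
          reassoc_of% hjq', sub_self]
      calc j' ≫ q = ((j' ≫ q) ≫ j) ≫ q := by rw [Category.assoc, hjq, Category.comp_id]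
        _ = 0 := by rw [this, zero_comp]
    have rA : Retract A X := ⟨j, q, hjq⟩
    have rB : Retract B X := ⟨j', q', hjq'⟩
    have hA : RDeg R s p A := by
      have h6 : ∀ i n, n ≠ p → IsZero (((s i).truncGELE n n).obj ((R i).obj A)) := by
        intro i n hn
        rw [IsZero.iff_id_eq_zero, ← CategoryTheory.Functor.map_id,
          ← CategoryTheory.Functor.map_id]
        have h7 : 𝟙 A = j ≫ π ≫ q := by rw [← hqj, Category.assoc, hjq, Category.comp_id, hjq]
        rw [h7, Functor.map_comp, Functor.map_comp, Functor.map_comp, Functor.map_comp,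
          (hπ i).2 n hn, zero_comp, comp_zero]
      constructor
      · intro i
        obtain ⟨⟨b, hb'⟩, -⟩ := hbd i ((R i).obj A)
        exact (isLE_of_H (s i) b ⟨hb'⟩ fun n hn => h6 i n (by omega)).le
      · intro i
        obtain ⟨-, ⟨a, ha'⟩⟩ := hbd i ((R i).obj A)
        exact (isGE_of_H (s i) a ⟨ha'⟩ fun n hn => h6 i n (by omega)).ge
    have hB1 : (s i₀).IsGE ((R i₀).obj B) (p + 1) := by
      refine isGE_succ_of_H (s i₀) ⟨ge_retract (s i₀) (rB.map (R i₀)) h1.ge⟩ ?_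
      rw [IsZero.iff_id_eq_zero, ← CategoryTheory.Functor.map_id,
        ← CategoryTheory.Functor.map_id]
      have h7 : 𝟙 B = j' ≫ (𝟙 X - π) ≫ q' := by
        rw [← hqj', Category.assoc, hjq', Category.comp_id, hjq']
      rw [h7, Functor.map_comp, Functor.map_comp, Functor.map_comp, Functor.map_comp,
        Functor.map_sub, Functor.map_sub, (hπ i₀).1, CategoryTheory.Functor.map_id,
        CategoryTheory.Functor.map_id, sub_self, zero_comp, comp_zero]
    have hB2 : (s i₀).IsLE ((R i₀).obj B) (p + 1 + k - 1) := by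
      have h8 : p + 1 + (k : ℤ) - 1 = p + ((k + 1 : ℕ) : ℤ) - 1 := by push_cast; ring
      rw [h8]
      exact ⟨le_retract (s i₀) (rB.map (R i₀)) h2.le⟩
    obtain ⟨n, hn⟩ := ih (p + 1) (hret _ _ hX ⟨rB⟩) hB1 hB2
    refine ⟨n + 1, A, B, ⟨p, hret _ _ hX ⟨rA⟩, hA⟩, hn, ⟨?_⟩⟩
    refine ⟨biprod.lift q q', biprod.desc j j', ?_, ?_⟩
    · rw [biprod.lift_desc, hqj, hqj']
      abel
    · apply biprod.hom_ext'
      · apply biprod.hom_ext
        · simp [hjq]
        · simp [e1]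
      · apply biprod.hom_ext
        · simp [e2]
        · simp [hjq']

theorem kunneth_of_nilpotent [IsIdempotentComplete T]
    (hret : ∀ X Y, 𝒞 Y → Nonempty (Retract X Y) → 𝒞 X)
    (hbd : ∀ i, Bounded (s i)) (hK : KunnethProjectors R s 𝒞) (i₀ : I)
    (hcons : ∀ X : T, IsZero ((R i₀).obj X) → IsZero X)
    (hnil : ∀ (X : T) (φ : End X), (∀ n, ((s i₀).truncGELE n n).map
      ((R i₀).map (φ : X ⟶ X)) = 0) → IsNilpotent φ) : Kunneth R s 𝒞 := by
  intro X hX
  obtain ⟨⟨b, hb'⟩, ⟨a, ha⟩⟩ := hbd i₀ ((R i₀).obj X)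
  refine kunneth_aux hret hbd hK i₀ hcons hnil (b - a + 1).toNat a hX ⟨ha⟩ ?_
  haveI : (s i₀).IsLE ((R i₀).obj X) b := ⟨hb'⟩
  exact (s i₀).isLE_of_le _ b _ (by omega)

end Pool.Agent.H939.PF
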