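import Pool.Agent.H939.PF.Kun

/-!
# Lifting classes along pure objects
-/

set_option linter.unusedSectionVars false
set_option linter.style.haveILetI false

open CategoryTheory Limits MonoidalCategory Triangulated Pretriangulated ZeroObject
open Functor.LaxMonoidal Functor.OplaxMonoidal

namespace Pool.Agent.H939.PF

open Pool.Agent.W492.TS Pool.Agent.W492.PC
open Pool.Agent.W492.MT (IsSum)

universe v u v₂ u₂ w

section
variable {T : Type u} [Category.{v} T] [MonoidalCategory T] {D : Type u₂} [Category.{v₂} D]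
    [MonoidalCategory D] (R : T ⥤ D) [R.Monoidal]

/-- `R A ⟶ R (A ⊗ N)` defined by `x : 𝟙 ⟶ R N`. -/
def ww (A : T) {N : T} (x : 𝟙_ D ⟶ R.obj N) : R.obj A ⟶ R.obj (A ⊗ N) :=
  (ρ_ (R.obj A)).inv ≫ (R.obj A ◁ x) ≫ μ R A N

theorem act_eq {E N : T} (g : E ⊗ N ⟶ E) (x : 𝟙_ D ⟶ R.obj N) :
    act R g x = ww R E x ≫ R.map g := by
  simp only [act, ww, Category.assoc]

theorem ww_nat {A B N : T} (f : A ⟶ B) (x : 𝟙_ D ⟶ R.obj N) :
    R.map f ≫ ww R B x = ww R A x ≫ R.map (f ▷ N) := by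
  simp only [ww, Category.assoc]
  rw [← μ_natural_left, whisker_exchange_assoc]
  simp

theorem ww_assoc (A B : T) {N : T} (x : 𝟙_ D ⟶ R.obj N) :
    μ R A B ≫ ww R (A ⊗ B) x ≫ R.map (α_ A B N).hom =
      (R.obj A ◁ ww R B x) ≫ μ R A (B ⊗ N) := by
  simp only [ww, Category.assoc, MonoidalCategory.whiskerLeft_comp]
  have h1 : μ R A B ≫ (ρ_ (R.obj (A ⊗ B))).inv ≫ (R.obj (A ⊗ B) ◁ x) =
      (ρ_ (R.obj A ⊗ R.obj B)).inv ≫ ((R.obj A ⊗ R.obj B) ◁ x) ≫ (μ R A B ▷ R.obj N) := by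
    rw [whisker_exchange]
    simp
  rw [reassoc_of% h1, Functor.LaxMonoidal.associativity]
  simp only [rightUnitor_tensor_inv, tensor_whiskerLeft, Category.assoc, Iso.inv_hom_id_assoc]

theorem ww_unit {N : T} (x : 𝟙_ D ⟶ R.obj N) :
    ε R ≫ ww R (𝟙_ T) x ≫ R.map (λ_ N).hom = x := by
  simp only [ww, Category.assoc]
  have h1 : ε R ≫ (ρ_ (R.obj (𝟙_ T))).inv ≫ (R.obj (𝟙_ T) ◁ x) =
      (ρ_ (𝟙_ D)).inv ≫ (𝟙_ D ◁ x) ≫ (ε R ▷ R.obj N) := by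
    rw [whisker_exchange]
    simp
  rw [reassoc_of% h1, ← Functor.LaxMonoidal.left_unitality]
  simp [← unitors_inv_equal]

/-- the transpose of `γ : P ⊗ N ⟶ Q`. -/
def trG {P' P N Q : T} [ExactPairing P' P] (γ : P ⊗ N ⟶ Q) : N ⟶ P' ⊗ Q :=
  (λ_ N).inv ≫ (η_ P' P ▷ N) ≫ (α_ P' P N).hom ≫ (P' ◁ γ)

/-- the transpose of `k : P ⟶ Q`. -/
def trK {P' P Q : T} [ExactPairing P' P] (k : P ⟶ Q) : 𝟙_ T ⟶ P' ⊗ Q :=
  η_ P' P ≫ (P' ◁ k)

theorem comp_trG {P' P N Q : T} [ExactPairing P' P] (γ : P ⊗ N ⟶ Q) (k : P ⟶ Q)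
    (x : 𝟙_ D ⟶ R.obj N) (h : ww R P x ≫ R.map γ = R.map k) :
    x ≫ R.map (trG (P' := P') γ) = ε R ≫ R.map (trK (P' := P') k) := by
  have h0 : x ≫ R.map (λ_ N).inv = ε R ≫ ww R (𝟙_ T) x := by
    rw [← cancel_mono (R.map (λ_ N).hom), Category.assoc, Category.assoc, ww_unit,
      ← Functor.map_comp, Iso.inv_hom_id, CategoryTheory.Functor.map_id, Category.comp_id]
  have h1 : ww R (P' ⊗ P) x ≫ R.map (α_ P' P N).hom =
      δ R P' P ≫ (R.obj P' ◁ ww R P x) ≫ μ R P' (P ⊗ N) := by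
    rw [← ww_assoc, Functor.Monoidal.δ_μ_assoc]
  calc x ≫ R.map (trG (P' := P') γ)
      = (x ≫ R.map (λ_ N).inv) ≫ R.map (η_ P' P ▷ N) ≫ R.map (α_ P' P N).hom ≫
          R.map (P' ◁ γ) := by
        simp only [trG, Functor.map_comp, Category.assoc]
    _ = ε R ≫ R.map (η_ P' P) ≫ (ww R (P' ⊗ P) x ≫ R.map (α_ P' P N).hom) ≫
          R.map (P' ◁ γ) := by
        rw [h0]
        simp only [Category.assoc]
        rw [reassoc_of% (ww_nat R (η_ P' P) x)]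
    _ = ε R ≫ R.map (η_ P' P) ≫ δ R P' P ≫ (R.obj P' ◁ (ww R P x ≫ R.map γ)) ≫ μ R P' Q := by
        rw [h1]
        simp only [Category.assoc, MonoidalCategory.whiskerLeft_comp, μ_natural_right]
    _ = _ := by
        rw [h, μ_natural_right, Functor.Monoidal.δ_μ_assoc]
        simp only [trK, Functor.map_comp]

theorem eq_of_comp_trG {P' P N Q : T} [ExactPairing P' P] (γ : P ⊗ N ⟶ Q) (k : P ⟶ Q)
    (y : 𝟙_ T ⟶ N) (h : y ≫ trG (P' := P') γ = trK (P' := P') k) :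
    (ρ_ P).inv ≫ (P ◁ y) ≫ γ = k := by
  have h1 : y ≫ trG (P' := P') γ = η_ P' P ≫ (P' ◁ ((ρ_ P).inv ≫ (P ◁ y) ≫ γ)) := by
    have e1 : y ≫ (λ_ N).inv ≫ (η_ P' P ▷ N) = η_ P' P ≫ (ρ_ (P' ⊗ P)).inv ≫ ((P' ⊗ P) ◁ y) := by
      have e2 : η_ P' P ≫ (ρ_ (P' ⊗ P)).inv = (ρ_ (𝟙_ T)).inv ≫ (η_ P' P ▷ 𝟙_ T) := by simp
      have e3 : y ≫ (λ_ N).inv = (ρ_ (𝟙_ T)).inv ≫ (𝟙_ T ◁ y) := by
        simp [← unitors_inv_equal]
      rw [reassoc_of% e3, reassoc_of% e2, whisker_exchange]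
    calc y ≫ trG (P' := P') γ = (y ≫ (λ_ N).inv ≫ (η_ P' P ▷ N)) ≫ (α_ P' P N).hom ≫ (P' ◁ γ) := by
          simp only [trG, Category.assoc]
      _ = _ := by
          rw [e1]
          simp
  have h2 : η_ P' P ≫ (P' ◁ ((ρ_ P).inv ≫ (P ◁ y) ≫ γ)) = η_ P' P ≫ (P' ◁ k) := by
    rw [← h1, h]
    rfl
  have h3 := congrArg (tensorLeftHomEquiv (𝟙_ T) P' P Q).symm h2
  rw [tensorLeftHomEquiv_symm_coevaluation_comp_whiskerLeft,
    tensorLeftHomEquiv_symm_coevaluation_comp_whiskerLeft] at h3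
  exact (cancel_epi (ρ_ P).hom).1 h3

end

end Pool.Agent.H939.PF
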