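import Pool.Agent.H939.PF.Proj

/-!
# The motivic t-structure over the extension
-/

set_option linter.unusedSectionVars false
set_option linter.style.haveILetI false

open CategoryTheory Limits MonoidalCategory Triangulated Pretriangulated ZeroObject

namespace Pool.Agent.H939.PF

open Pool.Agent.W492
open Pool.Agent.W492.TS Pool.Agent.W492.PC

universe v u v₁ u₁ v₂ u₂ v₃ u₃ w

variable {T : Type u} [Category.{v} T] [HasZeroObject T] [HasShift T ℤ] [Preadditive T]
  [∀ n : ℤ, (shiftFunctor T n).Additive] [Pretriangulated T] [IsTriangulated T]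
  [IsIdempotentComplete T]
  [MonoidalCategory T] [SymmetricCategory T] [RightRigidCategory T]
  [∀ X : T, (tensorLeft X).CommShift ℤ] [∀ X : T, (tensorLeft X).IsTriangulated]
  [MonoidalPreadditive T]
  {I : Type w} [Nonempty I] {D : I → Type u₂} [∀ i, Category.{v₂} (D i)]
  [∀ i, HasZeroObject (D i)]
  [∀ i, HasShift (D i) ℤ] [∀ i, Preadditive (D i)]
  [∀ i, ∀ n : ℤ, (shiftFunctor (D i) n).Additive] [∀ i, Pretriangulated (D i)]
  [∀ i, IsTriangulated (D i)] [∀ i, MonoidalCategory (D i)] [∀ i, MonoidalPreadditive (D i)]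
  {T' : Type u₁} [Category.{v₁} T'] [HasZeroObject T'] [HasShift T' ℤ] [Preadditive T']
  [∀ n : ℤ, (shiftFunctor T' n).Additive] [Pretriangulated T'] [IsTriangulated T']
  [IsIdempotentComplete T']
  [MonoidalCategory T'] [SymmetricCategory T'] [RightRigidCategory T']
  [∀ X : T', (tensorLeft X).CommShift ℤ] [∀ X : T', (tensorLeft X).IsTriangulated]
  [MonoidalPreadditive T']
  {D' : I → Type u₃} [∀ i, Category.{v₃} (D' i)] [∀ i, HasZeroObject (D' i)]
  [∀ i, HasShift (D' i) ℤ] [∀ i, Preadditive (D' i)]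
  [∀ i, ∀ n : ℤ, (shiftFunctor (D' i) n).Additive] [∀ i, Pretriangulated (D' i)]
  [∀ i, IsTriangulated (D' i)] [∀ i, MonoidalCategory (D' i)] [∀ i, MonoidalPreadditive (D' i)]
  {R : ∀ i, T ⥤ D i} [∀ i, (R i).CommShift ℤ] [∀ i, (R i).IsTriangulated]
  [∀ i, (R i).Monoidal] {s : ∀ i, TStructure (D i)}
  {R' : ∀ i, T' ⥤ D' i} [∀ i, (R' i).CommShift ℤ] [∀ i, (R' i).IsTriangulated]
  [∀ i, (R' i).Monoidal] {s' : ∀ i, TStructure (D' i)}
  {π : T ⥤ T'} [π.LaxMonoidal] [π.PreservesZeroMorphisms]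
  {F : Type} [Field F] [CharZero F] [Linear F T] [MonoidalLinear F T]
  [Linear F T'] [MonoidalLinear F T']
  {𝒞 : ObjectProperty T} {𝒞' : ObjectProperty T'}

/-- the data of the motivic t-structure. -/
theorem good_of (h : MT.Setup R s 𝒞 F) {t : TStructure T} (h1 : MT.NonDegenerate t)
    (h2 : MT.TensorExact t) (h3 : ∀ i, MT.TExact t (s i) (R i)) : Good R s t := by
  have i₀ : I := Classical.arbitrary I
  obtain ⟨-, hone'⟩ := idem_of_scalar R F h.scalar i₀ (h.unit_ne i₀)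
  have h2' : TS.TensorExact t := h2
  have ht : Motivic R s t := ⟨h1, h2'.heart, h3⟩
  have hcons : ∀ i X, IsZero ((R i).obj X) → IsZero X := fun i =>
    Motivic.isZero hone' h.unit_ne ht i
  obtain ⟨hu1, hu2⟩ := unit_mem_heart h1 h2'.heart
  exact ⟨h1, h2', h3, fun i n X => ht.le_iff i (hcons i) n X,
    fun i n X => ht.ge_iff i (hcons i) n X, hcons, hu1.le, hu2.ge⟩

theorem isProj_iff {D : Type u₂} [Category.{v₂} D] [HasZeroObject D] [HasShift D ℤ]
    [Preadditive D] [∀ n : ℤ, (shiftFunctor D n).Additive] [Pretriangulated D]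
    [IsTriangulated D] (s : TStructure D) (n : ℤ) {X : D} (f : X ⟶ X) :
    IsProj s n f ↔ (s.truncGELE n n).map f = 𝟙 _ ∧
      ∀ m, m ≠ n → (s.truncGELE m m).map f = 0 := Iff.rfl

/-- The motivic t-structure of `T` gives the motivic t-structure of `T'`. -/
theorem main_aux (h : MT.Setup R s 𝒞 F) (hL : MT.Lefschetz R s 𝒞) (h' : MT.Setup R' s' 𝒞' F)
    (hdeg : ∀ (i : I) (n : ℤ) (X : T), (s i).le n ((R i).obj X) →
      (s' i).le n ((R' i).obj (π.obj X)))
    (hP : PushForward R s R' s' π)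
    (hF : ∀ t : TStructure T, Good R s t → Kunneth R s 𝒞 → UnitVanishing R s 𝒞 →
      RatEqNum R s 𝒞 → KunnethProjectors R' s' 𝒞')
    (hQ : ∃ t : TStructure T, MT.NonDegenerate t ∧ MT.TensorExact t ∧
      ∀ i, MT.TExact t (s i) (R i)) :
    ∃ t : TStructure T', MT.NonDegenerate t ∧ MT.TensorExact t ∧
      ∀ i, MT.TExact t (s' i) (R' i) := by
  have i₀ : I := Classical.arbitrary I
  obtain ⟨t, h1, h2, h3⟩ := hQ
  have ht : Good R s t := good_of h h1 h2 h3
  have hC := chow_of_setup h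
  have hC' := chow_of_setup h'
  -- the base
  have hKT : Kunneth R s 𝒞 :=
    kunneth_of_motivic hC (lefschetzSystem hL) h.bounded h.tensorExact
      ⟨h1, TS.TensorExact.heart h2, h3⟩ i₀ (ht.cons i₀)
  have key := tfae_of_chow F h.scalar h.bounded h.tensorExact h.unit_ne h.unit_simple h.oddFinite
    hC (fun _ => hKT)
  have key12 := key.out 0 1
  obtain ⟨-, hV, hR⟩ := key12.1 ⟨t, h1, h2, h3⟩
  -- the extension
  have hcons : ∀ i (X : T'), IsZero ((R' i).obj X) → IsZero X := fun i X hX =>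
    conservative ht hP i X hX
  have hK' : Kunneth R' s' 𝒞' :=
    kunneth_of_nilpotent h'.retract_mem h'.bounded (hF t ht hKT hV hR) i₀ (hcons i₀) fun X φ hφ =>
      nilpotent ht hP h'.tensorExact hdeg i₀ (h'.bounded i₀) φ hφ
  have key' := tfae_of_chow F h'.scalar h'.bounded h'.tensorExact h'.unit_ne h'.unit_simple
    h'.oddFinite hC' (fun _ => hK')
  have key31 := key'.out 2 0
  refine key31.1 ⟨hK', ?_, i₀, reflects_of_isZero (R' i₀) (hcons i₀), ?_⟩
  · intro X d hX m hm f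
    refine orth ht hP i₀ (n := 0) (m := d - m) (by omega) ?_ ?_ f
    · exact (rdeg_unit (R := R') (s := s') h'.unit_simple).1 i₀
    · exact (hX.2.2.shift (show m + (d - m) = d by ring)) i₀
  · intro X d hX g hg
    have hX0 : RDeg R' s' 0 (X⟦d⟧) := hX.2.shift (by ring)
    exact faithful ht hP h'.tensorExact hdeg i₀ (n := 0) g (hX0.1 i₀)
      ((rdeg_unit (R := R') (s := s') h'.unit_simple).2 i₀) hg

/-- The motivic t-structure of `T` gives the motivic t-structure of `T'`. -/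
theorem main (h : MT.Setup R s 𝒞 F) (hL : MT.Lefschetz R s 𝒞) (h' : MT.Setup R' s' 𝒞' F)
    (hdeg : ∀ (i : I) (n : ℤ) (X : T), (s i).le n ((R i).obj X) →
      (s' i).le n ((R' i).obj (π.obj X)))
    (hP : PushForward R s R' s' π) (hF : Models R s R' s' 𝒞 𝒞')
    (hQ : ∃ t : TStructure T, MT.NonDegenerate t ∧ MT.TensorExact t ∧
      ∀ i, MT.TExact t (s i) (R i)) :
    ∃ t : TStructure T', MT.NonDegenerate t ∧ MT.TensorExact t ∧
      ∀ i, MT.TExact t (s' i) (R' i) := by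
  refine main_aux h hL h' hdeg hP (fun t ht hKT hV hR M hM n => ?_) hQ
  obtain ⟨E, N, g, hE, hN, ⟨i, x, hx⟩, hy⟩ := hF M n hM
  obtain ⟨y, hy'⟩ := exists_lift ht (chow_of_setup h) h.tensorExact F h.scalar h.unit_ne
    h.unit_simple h.oddFinite hR hV hKT hE hN g n i x hx
  exact hy y hy'

/-- Kuenneth projectors exist if there are Kuenneth decompositions. -/
theorem projectors_of_kunneth (hK : Kunneth R s 𝒞) {X : T} (hX : 𝒞 X) (n : ℤ) :
    ∃ p : X ⟶ X, ∀ i, IsProj (s i) n ((R i).map p) := by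
  obtain ⟨r, hr⟩ := hK X hX
  obtain ⟨P, a, b, hP, hab⟩ := exists_family hr
  choose d hd using hP
  exact ⟨_, fun i => isProj_sum (fun j => (hd j).2) hab n i⟩

/-- algebraic extensions -/
theorem main_alg [π.Additive] (h : MT.Setup R s 𝒞 F) (hL : MT.Lefschetz R s 𝒞)
    (h' : MT.Setup R' s' 𝒞' F)
    (hdeg : ∀ (i : I) (n : ℤ) (X : T), (s i).le n ((R i).obj X) →
      (s' i).le n ((R' i).obj (π.obj X)))
    (hH : ∀ (i : I) (n : ℤ) (X Y : T) (f : X ⟶ Y), ((s i).truncGELE n n).map ((R i).map f) = 0 →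
      ((s' i).truncGELE n n).map ((R' i).map (π.map f)) = 0)
    (hP : PushForward R s R' s' π)
    (hret : ∀ X, 𝒞' X → ∃ E, 𝒞 E ∧ Nonempty (Retract X (π.obj E)))
    (hQ : ∃ t : TStructure T, MT.NonDegenerate t ∧ MT.TensorExact t ∧
      ∀ i, MT.TExact t (s i) (R i)) :
    ∃ t : TStructure T', MT.NonDegenerate t ∧ MT.TensorExact t ∧
      ∀ i, MT.TExact t (s' i) (R' i) := by
  refine main_aux h hL h' hdeg hP (fun t ht hKT hV hR M hM n => ?_) hQ
  obtain ⟨E, hE, ⟨r⟩⟩ := hret M hM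
  obtain ⟨p, hp⟩ := projectors_of_kunneth hKT hE n
  refine ⟨r.i ≫ π.map p ≫ r.r, fun i => ⟨?_, fun m hm => ?_⟩⟩
  · have h1 : ((s' i).truncGELE n n).map ((R' i).map (π.map (p - 𝟙 E))) = 0 := by
      refine hH i n _ _ _ ?_
      rw [Functor.map_sub, Functor.map_sub, (hp i).1, CategoryTheory.Functor.map_id,
        CategoryTheory.Functor.map_id, sub_self]
    have h2 : ((s' i).truncGELE n n).map ((R' i).map (π.map p)) = 𝟙 _ := by
      rw [Functor.map_sub, Functor.map_sub, Functor.map_sub, sub_eq_zero] at h1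
      rw [h1, CategoryTheory.Functor.map_id, CategoryTheory.Functor.map_id,
        CategoryTheory.Functor.map_id]
    rw [Functor.map_comp, Functor.map_comp, Functor.map_comp, Functor.map_comp, h2,
      Category.id_comp, ← Functor.map_comp, ← Functor.map_comp, r.retract,
      CategoryTheory.Functor.map_id, CategoryTheory.Functor.map_id]
  · rw [Functor.map_comp, Functor.map_comp, Functor.map_comp, Functor.map_comp,
      hH i m _ _ _ ((hp i).2 m hm), zero_comp, comp_zero]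

/-- An endomorphism acting by zero on the cohomology of the realisations is nilpotent, if there
is a motivic t-structure. -/
theorem nilpotent_of_good {t : TStructure T} (ht : Good R s t) (i : I) (hb : TS.Bounded (s i))
    {X : T} (φ : End X) (hφ : ∀ n, ((s i).truncGELE n n).map ((R i).map (φ : X ⟶ X)) = 0) :
    IsNilpotent φ := by
  obtain ⟨⟨b, hb'⟩, ⟨a, ha⟩⟩ := hb ((R i).obj X)
  have h1 : t.IsGE X a := ⟨(ht.ge_iff i a X).2 ha⟩
  have h2 : t.IsLE X b := ⟨(ht.le_iff i b X).2 hb'⟩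
  refine ⟨(b - a + 1).toNat, pow_eq_zero_of_H t _ a φ (fun n => ?_) h1
    (t.isLE_of_le X b _ (by omega))⟩
  exact H_eq_zero_of_map (R i) (ht.ex i) (ht.cons i) _ n (hφ n)

/-- subfields -/
theorem main_down [π.Additive] [π.Faithful] (h : MT.Setup R s 𝒞 F)
    (h' : MT.Setup R' s' 𝒞' F) (hL' : MT.Lefschetz R' s' 𝒞')
    (hle : ∀ (i : I) (n : ℤ) (X : T), (s i).le n ((R i).obj X) →
      (s' i).le n ((R' i).obj (π.obj X)))
    (hge : ∀ (i : I) (n : ℤ) (X : T), (s i).ge n ((R i).obj X) →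
      (s' i).ge n ((R' i).obj (π.obj X)))
    (hH : ∀ (i : I) (n : ℤ) (X Y : T) (f : X ⟶ Y), ((s i).truncGELE n n).map ((R i).map f) = 0 →
      ((s' i).truncGELE n n).map ((R' i).map (π.map f)) = 0)
    (hch : ∀ X, 𝒞 X → 𝒞' (π.obj X))
    (hsp : ∀ (X : T) (n : ℤ), 𝒞 X →
      (∃ φ : π.obj X ⟶ π.obj X, ∀ i, IsProj (s' i) n ((R' i).map φ)) →
      ∃ φ : X ⟶ X, ∀ i, IsProj (s i) n ((R i).map φ))
    (hQ : ∃ t : TStructure T', MT.NonDegenerate t ∧ MT.TensorExact t ∧
      ∀ i, MT.TExact t (s' i) (R' i)) :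
    ∃ t : TStructure T, MT.NonDegenerate t ∧ MT.TensorExact t ∧
      ∀ i, MT.TExact t (s i) (R i) := by
  have i₀ : I := Classical.arbitrary I
  obtain ⟨t, h1, h2, h3⟩ := hQ
  have ht : Good R' s' t := good_of h' h1 h2 h3
  have hC := chow_of_setup h
  have hC' := chow_of_setup h'
  have hKT : Kunneth R' s' 𝒞' :=
    kunneth_of_motivic hC' (lefschetzSystem hL') h'.bounded h'.tensorExact
      ⟨h1, TS.TensorExact.heart h2, h3⟩ i₀ (ht.cons i₀)
  have hzero : ∀ X : T, IsZero (π.obj X) → IsZero X := fun X hX => by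
    rw [IsZero.iff_id_eq_zero]
    apply π.map_injective
    rw [Functor.map_zero]
    exact hX.eq_of_src _ _
  have hcons : ∀ i (X : T), IsZero ((R i).obj X) → IsZero X := fun i X hX =>
    hzero X (h1.1 _ fun n => (ht.le_iff i n _).2 (hle i n X ((s i).isLE_of_isZero hX n).le))
  have hKP : KunnethProjectors R s 𝒞 := fun X hX n =>
    hsp X n hX (projectors_of_kunneth hKT (hch X hX) n)
  have hnil : ∀ (X : T) (φ : End X), (∀ n, ((s i₀).truncGELE n n).map
      ((R i₀).map (φ : X ⟶ X)) = 0) → IsNilpotent φ := by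
    intro X φ hφ
    let ψ : End (π.obj X) := π.map (φ : X ⟶ X)
    obtain ⟨k, hk⟩ : IsNilpotent ψ :=
      nilpotent_of_good ht i₀ (h'.bounded i₀) ψ fun n => hH i₀ n _ _ _ (hφ n)
    refine ⟨k, ?_⟩
    apply π.map_injective
    have h5 : π.map ((φ ^ k : End X) : X ⟶ X) = (ψ ^ k : End _) :=
      (Functor.mapEnd X π).map_pow φ k
    rw [h5, hk]
    exact (Functor.map_zero π X X).symm
  have hK : Kunneth R s 𝒞 :=
    kunneth_of_nilpotent h.retract_mem h.bounded hKP i₀ (hcons i₀) hnil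
  have key := tfae_of_chow F h.scalar h.bounded h.tensorExact h.unit_ne h.unit_simple
    h.oddFinite hC (fun _ => hK)
  have key31 := key.out 2 0
  have hu := rdeg_unit (R := R) (s := s) h.unit_simple
  refine key31.1 ⟨hK, ?_, i₀, reflects_of_isZero (R i₀) (hcons i₀), ?_⟩
  · intro X d hX m hm f
    apply π.map_injective
    rw [Functor.map_zero]
    refine t.zero_of_isLE_of_isGE _ 0 (d - m) (by omega) ?_ ?_
    · exact ⟨(ht.le_iff i₀ _ _).2 (hle i₀ _ _ (hu.1 i₀))⟩
    · exact ⟨(ht.ge_iff i₀ _ _).2 (hge i₀ _ _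
        ((hX.2.2.shift (show m + (d - m) = d by ring)) i₀))⟩
  · intro X d hX g hg
    have hX0 : RDeg R s 0 (X⟦d⟧) := hX.2.shift (by ring)
    apply π.map_injective
    rw [Functor.map_zero]
    have h6 : (t.truncGELE 0 0).map (π.map g) = 0 := by
      refine H_eq_zero_of_map (R' i₀) (ht.ex i₀) (ht.cons i₀) _ 0 (hH i₀ 0 _ _ _ ?_)
      rw [hg, Functor.map_zero]
    refine eq_zero_of_H_deg t 0 _ ?_ ?_ h6
    · exact ⟨(ht.le_iff i₀ _ _).2 (hle i₀ _ _ (hX0.1 i₀))⟩
    · exact ⟨(ht.ge_iff i₀ _ _).2 (hge i₀ _ _ (hu.2 i₀))⟩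

end Pool.Agent.H939.PF
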