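import Pool.Agent.H939.PF.Fix

/-!
# Kuenneth projectors of the extension
-/

set_option linter.unusedSectionVars false
set_option linter.style.haveILetI false

open CategoryTheory Limits MonoidalCategory Triangulated Pretriangulated ZeroObject
open Functor.LaxMonoidal Functor.OplaxMonoidal

namespace Pool.Agent.H939.PF

open Pool.Agent.W492.TS Pool.Agent.W492.PC
open Pool.Agent.W492.MT (IsSum)

universe v u v₂ u₂ w

variable {T : Type u} [Category.{v} T] [HasZeroObject T] [HasShift T ℤ] [Preadditive T]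
  [∀ n : ℤ, (shiftFunctor T n).Additive] [Pretriangulated T] [IsTriangulated T]
  [MonoidalCategory T] [SymmetricCategory T] [RightRigidCategory T]
  [∀ X : T, (tensorLeft X).CommShift ℤ] [∀ X : T, (tensorLeft X).IsTriangulated]
  [MonoidalPreadditive T]
  {I : Type w} {D : I → Type u₂} [∀ i, Category.{v₂} (D i)] [∀ i, HasZeroObject (D i)]
  [∀ i, HasShift (D i) ℤ] [∀ i, Preadditive (D i)]
  [∀ i, ∀ n : ℤ, (shiftFunctor (D i) n).Additive] [∀ i, Pretriangulated (D i)]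
  [∀ i, IsTriangulated (D i)] [∀ i, MonoidalCategory (D i)] [∀ i, MonoidalPreadditive (D i)]
  {R : ∀ i, T ⥤ D i} [∀ i, (R i).CommShift ℤ] [∀ i, (R i).IsTriangulated]
  [∀ i, (R i).Monoidal] {s : ∀ i, TStructure (D i)} {𝒞 : ObjectProperty T}

/-- explicit form of a direct sum decomposition -/
theorem exists_family {𝒬 : ObjectProperty T} {n : ℕ} {N : T} (hN : IsSum 𝒬 n N) :
    ∃ (P : Fin n → T) (a : ∀ j, P j ⟶ N) (b : ∀ j, N ⟶ P j), (∀ j, 𝒬 (P j)) ∧
      ∑ j, b j ≫ a j = 𝟙 N := by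
  induction n generalizing N with
  | zero =>
    have hN' : IsZero N := hN
    exact ⟨Fin.elim0, fun j => Fin.elim0 j, fun j => Fin.elim0 j, fun j => Fin.elim0 j,
      hN'.eq_of_src _ _⟩
  | succ n ih =>
    obtain ⟨A, B, hA, hB, ⟨e⟩⟩ := hN
    obtain ⟨P, a, b, hP, hab⟩ := ih hB
    refine ⟨Fin.cons A P, Fin.cons (α := fun j => (Fin.cons A P : Fin (n + 1) → T) j ⟶ N)
      (biprod.inl ≫ e.inv) (fun j => a j ≫ biprod.inr ≫ e.inv),
      Fin.cons (α := fun j => N ⟶ (Fin.cons A P : Fin (n + 1) → T) j)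
      (e.hom ≫ biprod.fst) (fun j => e.hom ≫ biprod.snd ≫ b j), ?_, ?_⟩
    · intro j
      refine Fin.cases ?_ (fun j => ?_) j
      · exact hA
      · exact hP j
    · rw [Fin.sum_univ_succ]
      change (e.hom ≫ biprod.fst) ≫ (biprod.inl ≫ e.inv) +
        ∑ j, (e.hom ≫ biprod.snd ≫ b j) ≫ (a j ≫ biprod.inr ≫ e.inv) = 𝟙 N
      have e1 : ∑ j, (e.hom ≫ biprod.snd ≫ b j) ≫ (a j ≫ biprod.inr ≫ e.inv) =
          (e.hom ≫ biprod.snd) ≫ (∑ j, b j ≫ a j) ≫ (biprod.inr ≫ e.inv) := by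
        rw [Preadditive.sum_comp, Preadditive.comp_sum]
        refine Finset.sum_congr rfl fun j _ => ?_
        simp only [Category.assoc]
      rw [e1, hab, Category.id_comp]
      have e2 : (e.hom ≫ biprod.fst) ≫ (biprod.inl ≫ e.inv) +
          (e.hom ≫ biprod.snd) ≫ (biprod.inr ≫ e.inv) =
          e.hom ≫ (biprod.fst ≫ biprod.inl + biprod.snd ≫ biprod.inr) ≫ e.inv := by
        simp only [Preadditive.add_comp, Preadditive.comp_add, Category.assoc]
      rw [e2, biprod.total, Category.id_comp, Iso.hom_inv_id]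

theorem isZero_H_rdeg {d m : ℤ} (h : m ≠ d) {X : T} (hX : RDeg R s d X) (i : I) :
    IsZero (((s i).truncGELE m m).obj ((R i).obj X)) := by
  rcases lt_or_gt_of_ne h with h | h
  · exact isZero_H_of_ge (s i) h ⟨hX.2 i⟩
  · exact isZero_H_of_le (s i) h ⟨hX.1 i⟩

section
variable {r : ℕ} {E : T} {P : Fin r → T} {a : ∀ j, P j ⟶ E} {b : ∀ j, E ⟶ P j} {d : Fin r → ℤ}
  (hP : ∀ j, RDeg R s (d j) (P j)) (hab : ∑ j, b j ≫ a j = 𝟙 E)
include hP

theorem H_term (i : I) {m : ℤ} {j : Fin r} (h : m ≠ d j) (f : P j ⟶ P j) :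
    ((s i).truncGELE m m).map ((R i).map (b j ≫ f ≫ a j)) = 0 := by
  rw [Functor.map_comp, Functor.map_comp, (isZero_H_rdeg h (hP j) i).eq_of_tgt
    (((s i).truncGELE m m).map ((R i).map (b j))) 0, zero_comp]

include hab

/-- the projector -/
theorem isProj_sum (n : ℤ) (i : I) : IsProj (s i) n
    ((R i).map (∑ j ∈ Finset.univ.filter fun j => d j = n, b j ≫ a j)) := by
  have h1 : ∀ j : Fin r, ∀ m, m ≠ d j →
      ((s i).truncGELE m m).map ((R i).map (b j ≫ a j)) = 0 := fun j m h => by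
    have := H_term (a := a) (b := b) hP i h (𝟙 _)
    rwa [Category.id_comp] at this
  constructor
  · rw [← CategoryTheory.Functor.map_id, ← CategoryTheory.Functor.map_id, ← hab,
      Functor.map_sum, Functor.map_sum, Functor.map_sum, Functor.map_sum, Finset.sum_filter]
    refine Finset.sum_congr rfl fun j _ => ?_
    by_cases h : d j = n
    · rw [if_pos h]
    · rw [if_neg h, h1 j n (Ne.symm h)]
  · intro m hm
    rw [Functor.map_sum, Functor.map_sum]
    refine Finset.sum_eq_zero fun j hj => h1 j m ?_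
    rw [(Finset.mem_filter.1 hj).2]
    exact hm

/-- detection -/
theorem H_eq_of_forall (i : I) (f p : E ⟶ E)
    (h : ∀ j k, d j = d k → a j ≫ f ≫ b k = a j ≫ p ≫ b k) (m : ℤ) :
    ((s i).truncGELE m m).map ((R i).map f) = ((s i).truncGELE m m).map ((R i).map p) := by
  have e0 : ∀ g : E ⟶ E, g = ∑ j, ∑ k, b j ≫ (a j ≫ g ≫ b k) ≫ a k := fun g => by
    calc g = (∑ j, b j ≫ a j) ≫ g ≫ (∑ k, b k ≫ a k) := by
          rw [hab, Category.id_comp, Category.comp_id]
      _ = _ := by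
          rw [Preadditive.sum_comp]
          refine Finset.sum_congr rfl fun j _ => ?_
          rw [Preadditive.comp_sum, Preadditive.comp_sum]
          refine Finset.sum_congr rfl fun k _ => ?_
          simp only [Category.assoc]
  rw [e0 f, e0 p]
  simp only [Functor.map_sum]
  refine Finset.sum_congr rfl fun j _ => Finset.sum_congr rfl fun k _ => ?_
  by_cases hjk : d j = d k
  · rw [h j k hjk]
  · have key : ∀ g : P j ⟶ P k, ((s i).truncGELE m m).map ((R i).map (b j ≫ g ≫ a k)) = 0 := by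
      intro g
      rw [Functor.map_comp, Functor.map_comp, Functor.map_comp, Functor.map_comp]
      by_cases h1 : m = d j
      · have h2 : m ≠ d k := fun h3 => hjk (h1.symm.trans h3)
        rw [(isZero_H_rdeg h2 (hP k) i).eq_of_tgt (((s i).truncGELE m m).map ((R i).map g)) 0,
          zero_comp, comp_zero]
      · rw [(isZero_H_rdeg h1 (hP j) i).eq_of_tgt
          (((s i).truncGELE m m).map ((R i).map (b j))) 0, zero_comp]
    rw [key, key]

end

/-- A class `x` of a realisation of `N` acting on `E` as a Kuenneth projector can be replaced by a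
morphism `𝟙 ⟶ N`. -/
theorem exists_lift [IsIdempotentComplete T] {t : TStructure T} (ht : Good R s t)
    (hC : ChowSystem R s 𝒞) (hs : ∀ i, TensorExact (s i)) (F : Type*) [Field F] [CharZero F]
    [Linear F T] [MonoidalLinear F T]
    (hone : ∀ e : 𝟙_ T ⟶ 𝟙_ T, ∃ a : F, e = a • 𝟙 _) (hD : ∀ i, ¬ IsZero (𝟙_ (D i)))
    (hu : ∀ i, SimpleUnit (s i) (𝟙_ (D i))) (hodd : OddFinite R s)
    (hb : RatEqNum R s 𝒞) (hv : UnitVanishing R s 𝒞)
    (hK : Kunneth R s 𝒞) {E N : T} (hE : 𝒞 E) (hN : WeightNonneg 𝒞 N) (g : E ⊗ N ⟶ E) (n : ℤ)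
    (i : I) (x : 𝟙_ (D i) ⟶ (R i).obj N) (hx : IsProj (s i) n (act (R i) g x)) :
    ∃ y : 𝟙_ T ⟶ N, ∀ i, IsProj (s i) n ((R i).map ((ρ_ E).inv ≫ (E ◁ y) ≫ g)) := by
  obtain ⟨r, hr⟩ := hK E hE
  obtain ⟨P, a, b, hP, hab⟩ := exists_family hr
  choose d hd using hP
  let p : E ⟶ E := ∑ j ∈ Finset.univ.filter fun j => d j = n, b j ≫ a j
  have hp : ∀ i, IsProj (s i) n ((R i).map p) := isProj_sum (fun j => (hd j).2) hab n
  let S : Type := {q : Fin r × Fin r // d q.1 = d q.2}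
  let c : S → Con R s 𝒞 N := fun q =>
    { P := P q.1.1
      Q := P q.1.2
      d := d q.1.1
      γ := (a q.1.1 ▷ N) ≫ g ≫ b q.1.2
      k := a q.1.1 ≫ p ≫ b q.1.2
      hP := hd q.1.1
      hQ := by rw [q.2]; exact hd q.1.2 }
  have hx' : ∀ c' ∈ ((Finset.univ : Finset S).toList.map c),
      ww (R i) c'.P x ≫ (R i).map c'.γ = (R i).map c'.k := by
    intro c' hc'
    obtain ⟨q, -, rfl⟩ := List.mem_map.1 hc'
    change ww (R i) (P q.1.1) x ≫ (R i).map ((a q.1.1 ▷ N) ≫ g ≫ b q.1.2) =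
      (R i).map (a q.1.1 ≫ p ≫ b q.1.2)
    have e1 : ww (R i) (P q.1.1) x ≫ (R i).map ((a q.1.1 ▷ N) ≫ g ≫ b q.1.2) =
        (R i).map (a q.1.1) ≫ act (R i) g x ≫ (R i).map (b q.1.2) := by
      rw [act_eq, Functor.map_comp, Functor.map_comp, ← reassoc_of% (ww_nat (R i) (a q.1.1) x)]
      simp only [Category.assoc]
    rw [e1, Functor.map_comp, Functor.map_comp, ← sub_eq_zero]
    refine eq_zero_of_H_deg (s i) (d q.1.1) _ ⟨(hd q.1.1).2.1 i⟩ ?_ ?_
    · rw [q.2]
      exact ⟨(hd q.1.2).2.2 i⟩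
    · rw [Functor.map_sub, Functor.map_comp, Functor.map_comp, Functor.map_comp,
        Functor.map_comp]
      by_cases h : d q.1.1 = n
      · rw [h, hx.1, (hp i).1, sub_self]
      · rw [hx.2 _ h, (hp i).2 _ h, sub_self]
  obtain ⟨y, hy⟩ := lift ht hC hs F hone hD hu hodd hb hv hK hN _ i x hx'
  refine ⟨y, fun i' => ?_⟩
  have key := H_eq_of_forall (R := R) (s := s) (fun j => (hd j).2) hab i'
    ((ρ_ E).inv ≫ (E ◁ y) ≫ g) p (fun j k hjk => by
      have h1 := hy (c ⟨(j, k), hjk⟩) (List.mem_map.2 ⟨⟨(j, k), hjk⟩, by simp, rfl⟩)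
      change (ρ_ (P j)).inv ≫ (P j ◁ y) ≫ ((a j ▷ N) ≫ g ≫ b k) = a j ≫ p ≫ b k at h1
      rw [← h1]
      rw [whisker_exchange_assoc]
      simp)
  refine ⟨?_, fun m hm => ?_⟩
  · rw [key, (hp i').1]
  · rw [key, (hp i').2 m hm]

end Pool.Agent.H939.PF
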