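import Pool.Agent.H939.PF.Kun

/-!
# Objects of weight `≥ 0`
-/

set_option linter.unusedSectionVars false
set_option linter.style.haveILetI false

open CategoryTheory Limits MonoidalCategory Triangulated Pretriangulated ZeroObject
open Functor.LaxMonoidal Functor.OplaxMonoidal

namespace Pool.Agent.H939.PF

open Pool.Agent.W492.TS Pool.Agent.W492.PC
open Pool.Agent.W492.MT (IsSum tpow)

universe v u v₂ u₂ w

section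
variable {T : Type u} [Category.{v} T] [HasZeroObject T] [HasShift T ℤ] [Preadditive T]
  [∀ n : ℤ, (shiftFunctor T n).Additive] [Pretriangulated T] [IsTriangulated T]

/-- `Y` is right orthogonal to the objects of `𝒞`, in positive degrees. -/
def Wp (𝒞 : ObjectProperty T) (Y : T) : Prop :=
  ∀ C, 𝒞 C → ∀ m : ℤ, 0 < m → ∀ f : C ⟶ Y⟦m⟧, f = 0

variable {𝒞 : ObjectProperty T}

theorem Wp.of_iso {Y Y' : T} (e : Y ≅ Y') (h : Wp 𝒞 Y) : Wp 𝒞 Y' := fun C hC m hm f => by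
  have := h C hC m hm (f ≫ (e.inv)⟦m⟧')
  rw [← cancel_mono ((e.inv)⟦m⟧'), this, zero_comp]

theorem Wp.shift {Y : T} (h : Wp 𝒞 Y) {a : ℤ} (ha : 0 ≤ a) : Wp 𝒞 (Y⟦a⟧) :=
  fun C hC m hm f => by
    have := h C hC (a + m) (by omega) (f ≫ (shiftIso Y a m (a + m) rfl).hom)
    rw [← cancel_mono (shiftIso Y a m (a + m) rfl).hom, this, zero_comp]

theorem Wp.ext {X Y Z : T} {f : X ⟶ Y} {g : Y ⟶ Z} {k : Z ⟶ X⟦(1 : ℤ)⟧}
    (hT : Triangle.mk f g k ∈ distTriang T) (hX : Wp 𝒞 X) (hZ : Wp 𝒞 Z) : Wp 𝒞 Y := by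
  intro C hC m hm y
  have h2 := Triangle.shift_distinguished _ hT m
  obtain ⟨x, hx⟩ := Triangle.coyoneda_exact₂ _ h2 y (hZ C hC m hm _)
  rw [hx, hX C hC m hm x]
  exact zero_comp

theorem Wp.of_isZero {Y : T} (h : IsZero Y) : Wp 𝒞 Y := fun _ _ m _ _ =>
  ((shiftFunctor T m).map_isZero h).eq_of_tgt _ _

variable [MonoidalCategory T] [SymmetricCategory T] [RightRigidCategory T]
  [∀ X : T, (tensorLeft X).CommShift ℤ] [∀ X : T, (tensorLeft X).IsTriangulated]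

theorem Wp.tensor_mem (htens : ∀ X Y, 𝒞 X → 𝒞 Y → 𝒞 (X ⊗ Y)) (hdual : ∀ X, 𝒞 X → 𝒞 Xᘁ)
    {C Y : T} (hC : 𝒞 C) (h : Wp 𝒞 Y) : Wp 𝒞 (C ⊗ Y) := by
  intro C' hC' m hm f
  let e : (C ⊗ Y)⟦m⟧ ≅ C ⊗ Y⟦m⟧ := (((tensorLeft C).commShiftIso m).app Y).symm
  have h1 : f ≫ e.hom = 0 := by
    apply (tensorLeftHomEquiv C' C (Cᘁ) (Y⟦m⟧)).symm.injective
    rw [h _ (htens _ _ (hdual C hC) hC') m hm ((tensorLeftHomEquiv C' C (Cᘁ) (Y⟦m⟧)).symm _)]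
    exact (h _ (htens _ _ (hdual C hC) hC') m hm _).symm
  rw [← cancel_mono e.hom, h1, zero_comp]

end

section
variable {T : Type u} [Category.{v} T] [HasZeroObject T] [HasShift T ℤ] [Preadditive T]
  [∀ n : ℤ, (shiftFunctor T n).Additive] [Pretriangulated T] [IsTriangulated T]
  {I : Type w} {D : I → Type u₂} [∀ i, Category.{v₂} (D i)] [∀ i, HasZeroObject (D i)]
  [∀ i, HasShift (D i) ℤ] [∀ i, Preadditive (D i)]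
  [∀ i, ∀ n : ℤ, (shiftFunctor (D i) n).Additive] [∀ i, Pretriangulated (D i)]
  [∀ i, IsTriangulated (D i)]
  (R : ∀ i, T ⥤ D i) [∀ i, (R i).CommShift ℤ] [∀ i, (R i).IsTriangulated]
  (s : ∀ i, TStructure (D i)) (𝒞 : ObjectProperty T)

/-- pure objects in degree `n`, of weight `≥ n` if `n ≤ 0`. -/
def WDeg (n : ℤ) : ObjectProperty T := fun X => ∃ w, (n ≤ 0 → n ≤ w) ∧ Wt R s 𝒞 w (X⟦n⟧)

variable {R s 𝒞}

theorem WDeg.pureDeg {n : ℤ} {X : T} (hX : WDeg R s 𝒞 n X) : PureDeg (Wt R s 𝒞) n X := by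
  obtain ⟨w, -, hw⟩ := hX
  exact ⟨w, hw⟩

theorem WDeg.rdeg {n : ℤ} {X : T} (hX : WDeg R s 𝒞 n X) : RDeg R s n X :=
  PureDeg.rdeg (fun _ _ h => h.2) hX.pureDeg

theorem WDeg.of_iso (hret : ∀ X Y, 𝒞 Y → Nonempty (Retract X Y) → 𝒞 X) {n : ℤ} {X Y : T}
    (e : X ≅ Y) (hX : WDeg R s 𝒞 n X) : WDeg R s 𝒞 n Y := by
  obtain ⟨w, h, hw⟩ := hX
  exact ⟨w, h, wt_retractClosed hret w _ _ hw
    ⟨Retract.ofIso ((shiftFunctor T n).mapIso e.symm)⟩⟩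

theorem wdeg_of_pureAt (hret : ∀ X Y, 𝒞 Y → Nonempty (Retract X Y) → 𝒞 X) {d : ℤ} {A : T}
    (hA : PureAt R s 𝒞 d A) {m : ℤ} (hm : d - m ≤ 0 → 0 ≤ m) :
    WDeg R s 𝒞 (d - m) (A⟦m⟧) :=
  ⟨d, fun h => by have := hm h; omega, wt_retractClosed hret d _ _ (wt_of_pureAt hret hA)
    ⟨Retract.ofIso (shiftIso A m (d - m) d (by ring))⟩⟩

theorem WDeg.exists_chow {n : ℤ} {X : T} (hX : WDeg R s 𝒞 n X) (hn : n ≤ 0) :
    ∃ (C : T) (a : ℤ), 𝒞 C ∧ 0 ≤ a ∧ Nonempty (X ≅ C⟦a⟧) := by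
  obtain ⟨w, h, hw⟩ := hX
  refine ⟨X⟦n⟧⟦-w⟧, w - n, hw.1, by have := h hn; omega, ⟨?_⟩⟩
  exact (shiftFunctorZero T ℤ).symm.app X ≪≫ (shiftIso X n (-n) 0 (by ring)).symm ≪≫
    (shiftIso (X⟦n⟧) (-w) (w - n) (-n) (by ring)).symm

theorem swap_wdeg [IsIdempotentComplete T]
    (hret : ∀ X Y, 𝒞 Y → Nonempty (Retract X Y) → 𝒞 X) (hss : Semisimple (Wt R s 𝒞))
    (hvan : NegVanishing (Wt R s 𝒞)) : Swap (WDeg R s 𝒞) := by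
  intro n m hnm X M Y f g h hT hX hY
  obtain ⟨v, hv', hv⟩ := hX
  obtain ⟨w, hw', hw⟩ := hY
  have hrc := wt_retractClosed (R := R) (s := s) hret
  obtain ⟨u, hu⟩ : ∃ u : X⟦(1 : ℤ)⟧ ⟶ Y, h ≫ u ≫ h = h := by
    let φ : X⟦(1 : ℤ)⟧⟦n⟧ ≅ X⟦1 + n⟧ := shiftIso X 1 n (1 + n) rfl
    by_cases hm : 1 + n = m
    · subst hm
      obtain ⟨k, hk⟩ := hss w v _ _ hw hv (h⟦n⟧' ≫ φ.hom)
      obtain ⟨u, hu⟩ := exists_unshift n (φ.hom ≫ k)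
      refine ⟨u, ?_⟩
      apply (shiftFunctor T n).map_injective
      rw [Functor.map_comp, Functor.map_comp, hu, ← cancel_mono φ.hom]
      simpa only [Category.assoc] using hk
    · refine ⟨0, ?_⟩
      have h0 : h = 0 := by
        let ψ : X⟦(1 : ℤ)⟧⟦n⟧ ≅ X⟦m⟧⟦1 + n - m⟧ :=
          φ ≪≫ (shiftIso X m (1 + n - m) (1 + n) (by ring)).symm
        have h1 := hvan w v _ _ hw hv (1 + n - m) (by omega) (h⟦n⟧' ≫ ψ.hom)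
        apply (shiftFunctor T n).map_injective
        rw [Functor.map_zero, ← cancel_mono ψ.hom, h1, zero_comp]
      rw [h0, zero_comp]
  obtain ⟨P, Q, p, q, r, hT', ⟨rP⟩, ⟨rQ⟩, -⟩ := swap_aux hT u hu
  refine ⟨P, Q, p, q, r, hT', ⟨w, hw', hrc w _ _ hw ⟨rP.map (shiftFunctor T n)⟩⟩,
    ⟨v, hv', ?_⟩⟩
  have rQ' : Retract (Q⟦m⟧) (X⟦m⟧) :=
    ((Retract.ofIso (shiftIso Q 1 (m - 1) m (by ring)).symm).trans
      (rQ.map (shiftFunctor T (m - 1)))).trans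
      (Retract.ofIso (shiftIso X 1 (m - 1) m (by ring)))
  exact hrc v _ _ hv ⟨rQ'⟩

theorem filt_chow (hret : ∀ X Y, 𝒞 Y → Nonempty (Retract X Y) → 𝒞 X)
    (hK : Kunneth R s 𝒞) {C : T} (hC : 𝒞 C) {m : ℤ} (hm : 0 ≤ m) :
    ∃ l, Filt (WDeg R s 𝒞) l (C⟦m⟧) := by
  obtain ⟨n, hn⟩ := hK C hC
  clear hC
  induction n generalizing C with
  | zero => exact ⟨[], (shiftFunctor T m).map_isZero hn⟩
  | succ n ih =>
    obtain ⟨A, B, ⟨d, hA⟩, hB, ⟨e⟩⟩ := hn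
    obtain ⟨l, hl⟩ := ih hB
    have hA' : Filt (WDeg R s 𝒞) [d - m] (A⟦m⟧) :=
      ⟨A⟦m⟧, 0, 𝟙 _, 0, 0, contractible_distinguished _, wdeg_of_pureAt hret hA fun _ => hm,
        isZero_zero T⟩
    have hT := Triangle.shift_distinguished _ (binaryBiproductTriangle_distinguished A B) m
    obtain ⟨f, g, k, hT'⟩ : ∃ (f : A⟦m⟧ ⟶ (A ⊞ B)⟦m⟧) (g : (A ⊞ B)⟦m⟧ ⟶ B⟦m⟧)
        (k : B⟦m⟧ ⟶ A⟦m⟧⟦(1 : ℤ)⟧), Triangle.mk f g k ∈ distTriang T := ⟨_, _, _, hT⟩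
    exact ⟨[d - m] ++ l, (hA'.concat hT' hl).of_iso ((shiftFunctor T m).mapIso e.symm)⟩

theorem filt_ext (hret : ∀ X Y, 𝒞 Y → Nonempty (Retract X Y) → 𝒞 X)
    (hK : Kunneth R s 𝒞) {n : ℕ} {N : T}
    (hN : IsExt (fun Y => ∃ (C : T) (m : ℕ), 𝒞 C ∧ Nonempty (Y ≅ C⟦(m : ℤ)⟧)) n N) :
    ∃ l, Filt (WDeg R s 𝒞) l N := by
  induction n generalizing N with
  | zero => exact ⟨[], hN⟩
  | succ n ih =>
    obtain ⟨X, M', f, g, h, hT, ⟨C, m, hC, ⟨e⟩⟩, hM'⟩ := hN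
    obtain ⟨l, hl⟩ := ih hM'
    obtain ⟨l', hl'⟩ := filt_chow hret hK hC (m := m) (by positivity)
    exact ⟨l' ++ l, (hl'.of_iso e.symm).concat hT hl⟩

end

end Pool.Agent.H939.PF
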